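import Mathlib

set_option autoImplicit false

/-!
# Blocking shifts by small primes
-/

namespace Pool.Agent.TH977.PW

open Finset

/-- There is a progression in which the shifts `j ∈ J` have fixed prime divisors, but the shifts
`h ∈ H` are coprime to the modulus. -/
lemma block (H J : Finset ℕ) (hd : Disjoint H J) : ∃ M n0 : ℕ, 0 < M ∧
    (∀ h ∈ H, Nat.Coprime (n0 + h) M) ∧
    ∀ j ∈ J, ∃ q : ℕ, q.Prime ∧ q ∣ M ∧ ∀ n : ℕ, n % M = n0 % M → q ∣ n + j := by
  obtain ⟨B, hB⟩ : ∃ B : ℕ, ∀ h ∈ H, h < B := by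
    refine ⟨H.sup id + 1, fun h hh => ?_⟩
    have : h ≤ H.sup id := Finset.le_sup (f := id) hh
    omega
  obtain ⟨q, hq⟩ : ∃ q : ℕ → ℕ, q = fun j => Nat.nth Nat.Prime (B + j) := ⟨_, rfl⟩
  have hqp : ∀ j, (q j).Prime := fun j => by
    rw [hq]
    exact Nat.prime_nth_prime _
  have hql : ∀ j, B + j + 2 ≤ q j := fun j => by
    rw [hq]
    exact Nat.add_two_le_nth_prime _
  have hqi : Function.Injective q := by
    intro i j hij
    rw [hq] at hij
    have := Nat.nth_injective Nat.infinite_setOf_prime hij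
    omega
  have hcop : Set.Pairwise (J : Set ℕ) (Function.onFun Nat.Coprime q) := by
    intro i _ j _ hij
    exact (Nat.coprime_primes (hqp i) (hqp j)).2 (fun h => hij (hqi h))
  obtain ⟨n0, hn0⟩ := Nat.chineseRemainderOfFinset (fun j => q j - j) q J
    (fun i _ => (hqp i).ne_zero) hcop
  have hdiv : ∀ j ∈ J, q j ∣ n0 + j := by
    intro j hj
    have h1 := hn0 j hj
    have h2 : n0 + j ≡ (q j - j) + j [MOD q j] := Nat.ModEq.add_right _ h1
    have h3 : (q j - j) + j = q j := Nat.sub_add_cancel (by have := hql j; omega)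
    rw [h3] at h2
    exact (Nat.modEq_zero_iff_dvd.1 (h2.trans (by simp [Nat.ModEq])))
  refine ⟨∏ j ∈ J, q j, n0, Finset.prod_pos (fun j _ => (hqp j).pos), ?_, ?_⟩
  · intro h hh
    apply Nat.Coprime.prod_right
    intro j hj
    rw [Nat.coprime_comm, (hqp j).coprime_iff_not_dvd]
    intro h1
    have h2 := hdiv j hj
    have hne : h ≠ j := fun e => (Finset.disjoint_left.1 hd hh) (e ▸ hj)
    have hb := hB h hh
    have hl := hql j
    rcases lt_or_gt_of_ne hne with h3 | h3
    · have h4 : q j ∣ (n0 + j) - (n0 + h) := Nat.dvd_sub h2 h1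
      have h5 := Nat.le_of_dvd (by omega) h4
      omega
    · have h4 : q j ∣ (n0 + h) - (n0 + j) := Nat.dvd_sub h1 h2
      have h5 := Nat.le_of_dvd (by omega) h4
      omega
  · intro j hj
    refine ⟨q j, hqp j, Finset.dvd_prod_of_mem _ hj, fun n hn => ?_⟩
    have h1 : n ≡ n0 [MOD q j] := Nat.ModEq.of_dvd (Finset.dvd_prod_of_mem _ hj) hn
    have h2 : n + j ≡ n0 + j [MOD q j] := Nat.ModEq.add_right _ h1
    exact (Nat.ModEq.dvd_iff h2 dvd_rfl).2 (hdiv j hj)

end Pool.Agent.TH977.PW
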