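import Pool.Agent.TH977.PW.PrimeArg
import Pool.Agent.W182.PW.Lin

set_option autoImplicit false

/-!
# Final forms, for concrete sets of arguments
-/

namespace Pool.Agent.TH977.PW

open Polynomial Finset Filter
open Pool.Agent.W123.RP Pool.Agent.H373R2.T7 Pool.Agent.W123.RU Pool.Agent.W123.RU.Poly
open Pool.Agent.W182.PW

/-- integer arguments -/
theorem final {ι : Type} [Fintype ι] [Nonempty ι] (f : ι → ℤ[X]) (hf : Sys f) (R Al : ℕ → Set ℕ)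
    (k : ℕ) (hk : Fintype.card ι = k) (hR : ∀ r m : ℕ, 2 ≤ r → m ∈ R r → Rough f r m)
    (hAl : ∀ r m : ℕ, 2 ≤ r → Rough f r m → Few f r m → m ∈ Al r) (θ : ℝ) (hθ : 0 < θ) (hθ1 : θ ≤ 1) :
    ∃ r0 : ℕ, 2 ≤ r0 ∧ ∀ r : ℕ, r0 ≤ r →
    (∃ κ : ℝ, 0 < κ ∧ ∀ᶠ X : ℕ in atTop, ∀ Y : ℕ, (X : ℝ) ^ θ ≤ Y → Y ≤ X →
      κ * Y / Real.log X ^ k ≤ N (Al r) X (X + Y)) ∧
    ∀ ε : ℝ, 0 < ε → ∃ c : ℝ, 0 < c ∧ ∀ δ : ℝ, 0 < δ → ∃ B : ℕ,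
      ∀ᶠ X : ℕ in atTop, ∀ Y : ℕ, (X : ℝ) ^ θ ≤ Y → 2 * Y ≤ X →
        ∀ A : Set ℕ, A ⊆ R r →
        (N (Irregular A k c δ B X Y) X (X + Y) : ℝ) ≤ ε * Y / Real.log X ^ k := by
  subst hk
  obtain ⟨r0, hr0, h⟩ := neighbours f hf θ hθ hθ1
  refine ⟨r0, hr0, fun r hr => ⟨?_, ?_⟩⟩
  · obtain ⟨κ, hκ, h1⟩ := (h r hr).1
    refine ⟨κ, hκ, ?_⟩
    filter_upwards [h1] with X hX Y hXY hYX
    refine (hX Y hXY hYX).trans ?_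
    have : N {m | Rough f r m ∧ Few f r m} X (X + Y) ≤ N (Al r) X (X + Y) :=
      N_mono _ _ _ _ (fun m _ _ hm => hAl r m (hr0.trans hr) hm.1 hm.2)
    exact_mod_cast this
  · intro ε hε
    obtain ⟨c, hc, h2⟩ := (h r hr).2 ε hε
    refine ⟨c, hc, fun δ hδ => ?_⟩
    obtain ⟨B, h3⟩ := h2 δ hδ
    refine ⟨B, ?_⟩
    filter_upwards [h3] with X hX Y hXY hYX A hA
    exact hX Y hXY hYX A (fun m hm => hR r m (hr0.trans hr) (hA hm))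

/-- prime arguments -/
theorem final_prime {ι : Type} [Fintype ι] (f : ι → ℤ[X])
    (hirr : ∀ i, Irreducible (f i)) (hdeg : ∀ i, 0 < (f i).natDegree)
    (hlead : ∀ i, 0 < (f i).leadingCoeff) (hinj : Function.Injective f) (hX : ∀ i, f i ≠ X)
    (hadm : ∀ p : ℕ, p.Prime → ∃ m : ℕ, ¬ p ∣ m ∧ ∀ i, ¬ (p : ℤ) ∣ (f i).eval (m : ℤ))
    (R Al : ℕ → Set ℕ) (k : ℕ) (hk : Fintype.card ι + 1 = k)
    (hR : ∀ r m : ℕ, 2 ≤ r → m ∈ R r → RoughX f r m)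
    (hAl : ∀ r m : ℕ, 2 ≤ r → m.Prime → Rough f r m → Few f r m → m ∈ Al r)
    (θ : ℝ) (hθ : 0 < θ) (hθ1 : θ ≤ 1) :
    ∃ r0 : ℕ, 2 ≤ r0 ∧ ∀ r : ℕ, r0 ≤ r →
    (∃ κ : ℝ, 0 < κ ∧ ∀ᶠ X : ℕ in atTop, κ * X / Real.log X ^ k ≤ N (Al r) X (2 * X)) ∧
    ∀ ε : ℝ, 0 < ε → ∃ c : ℝ, 0 < c ∧ ∀ δ : ℝ, 0 < δ → ∃ B : ℕ,
      ∀ᶠ X : ℕ in atTop, ∀ Y : ℕ, (X : ℝ) ^ θ ≤ Y → 2 * Y ≤ X →
        ∀ A : Set ℕ, A ⊆ R r →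
        (N (Irregular A k c δ B X Y) X (X + Y) : ℝ) ≤ ε * Y / Real.log X ^ k := by
  subst hk
  obtain ⟨r0, hr0, h⟩ := prime_neighbours f hirr hdeg hlead hinj hX hadm θ hθ hθ1
  refine ⟨r0, hr0, fun r hr => ⟨?_, ?_⟩⟩
  · obtain ⟨κ, hκ, h1⟩ := (h r hr).1
    refine ⟨κ, hκ, ?_⟩
    filter_upwards [h1] with X hX
    refine hX.trans ?_
    have : N {m | m.Prime ∧ Rough f r m ∧ Few f r m} X (2 * X) ≤ N (Al r) X (2 * X) :=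
      N_mono _ _ _ _ (fun m _ _ hm => hAl r m (hr0.trans hr) hm.1 hm.2.1 hm.2.2)
    exact_mod_cast this
  · intro ε hε
    obtain ⟨c, hc, h2⟩ := (h r hr).2 ε hε
    refine ⟨c, hc, fun δ hδ => ?_⟩
    obtain ⟨B, h3⟩ := h2 δ hδ
    refine ⟨B, ?_⟩
    filter_upwards [h3] with X hX Y hXY hYX A hA
    exact hX Y hXY hYX A (fun m hm => hR r m (hr0.trans hr) (hA hm))

end Pool.Agent.TH977.PW
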