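import Pool.Agent.TH977.PW.Input

set_option autoImplicit false

/-!
# Neighbourhoods of almost all elements of an arbitrary set of arguments with rough values
-/

namespace Pool.Agent.TH977.PW

open Polynomial Finset Filter
open Pool.Agent.W123.RP Pool.Agent.H373R2.T7 Pool.Agent.W123.RU Pool.Agent.W123.RU.Poly
open Pool.Agent.W123.GS Pool.Agent.W123.PP Pool.Agent.TH464.PW

open Classical in
/-- the number of elements of `A` in `(a, b]` -/
noncomputable def N (A : Set ℕ) (a b : ℕ) : ℕ := ((Finset.Ioc a b).filter (fun m => m ∈ A)).card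

open Classical in
lemma N_mono (A B : Set ℕ) (a b : ℕ) (h : ∀ m, a < m → m ≤ b → m ∈ A → m ∈ B) :
    N A a b ≤ N B a b := by
  unfold N
  apply card_le_card
  intro m hm
  rw [mem_filter, mem_Ioc] at hm ⊢
  exact ⟨hm.1, h m hm.1.1 hm.1.2 hm.2⟩

open Classical in
lemma card_le_N (S : Finset ℕ) (A : Set ℕ) (a b : ℕ) (g : ℕ → ℕ) (hg : Set.InjOn g (S : Set ℕ))
    (h : ∀ m ∈ S, a < g m ∧ g m ≤ b ∧ g m ∈ A) : S.card ≤ N A a b := by
  unfold N
  apply Finset.card_le_card_of_injOn g _ hg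
  intro m hm
  rw [Finset.mem_coe] at hm ⊢
  rw [mem_filter, mem_Ioc]
  obtain ⟨h1, h2, h3⟩ := h m hm
  exact ⟨⟨h1, h2⟩, h3⟩

/-- All intervals `(m - s, m + t]` with `s, t ≤ Y` of length at least `log ^ k X / c` contain the
right order of elements of `A`. -/
def RightOrder (A : Set ℕ) (k : ℕ) (c : ℝ) (X Y m : ℕ) : Prop :=
  ∀ s t : ℕ, s ≤ Y → t ≤ Y → Real.log X ^ k ≤ c * (s + t) →
    c * (s + t) / Real.log X ^ k ≤ N A (m - s) (m + t) ∧
      (N A (m - s) (m + t) : ℝ) ≤ (s + t) / (c * Real.log X ^ k)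

/-- Up to `δ`, `A` has a constant density on both sides of `m` up to the distance `2 ^ j`. -/
def ConstantDensity (A : Set ℕ) (k : ℕ) (c δ : ℝ) (X m j : ℕ) : Prop :=
  ∃ lam : ℝ, c ≤ lam ∧ lam ≤ 1 / c ∧ ∀ s t : ℕ, s ≤ 2 ^ j → t ≤ 2 ^ j →
    |(N A (m - s) (m + t) : ℝ) - lam * (s + t) / Real.log X ^ k| ≤ δ * 2 ^ j / Real.log X ^ k

open Classical in
/-- the number of the scales `log ^ k X ≤ 2 ^ j ≤ Y` without this property -/
noncomputable def badScales (A : Set ℕ) (k : ℕ) (c δ : ℝ) (X Y m : ℕ) : ℕ :=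
  ((Finset.range (Nat.log 2 Y + 1)).filter (fun j => Real.log X ^ k ≤ (2 : ℝ) ^ j ∧
    ¬ ConstantDensity A k c δ X m j)).card

/-- The elements of `A` that are not regular points of `A`. -/
def Irregular (A : Set ℕ) (k : ℕ) (c δ : ℝ) (B X Y : ℕ) : Set ℕ :=
  {m | m ∈ A ∧ ¬ (RightOrder A k c X Y m ∧ badScales A k c δ X Y m ≤ B)}

variable {ι : Type} [Fintype ι]

/-- the part of `A` in `(X - Y, X + 2 Y]`, shifted -/
def Sh (A : Set ℕ) (X Y n : ℕ) : Prop := 0 < n ∧ n ≤ 3 * Y ∧ n + (X - Y) ∈ A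

open Classical in
lemma co_Sh (A : Set ℕ) (X Y a b : ℕ) (hb : b ≤ 3 * Y) :
    co (Sh A X Y) a b = N A (a + (X - Y)) (b + (X - Y)) := by
  unfold co N
  apply Finset.card_bij (fun n _ => n + (X - Y))
  · intro n hn
    rw [mem_filter, mem_Ioc] at hn ⊢
    exact ⟨⟨by omega, by omega⟩, hn.2.2.2⟩
  · intro n _ m _ h
    omega
  · intro m hm
    rw [mem_filter, mem_Ioc] at hm
    refine ⟨m - (X - Y), ?_, by omega⟩
    rw [mem_filter, mem_Ioc]
    have e : m - (X - Y) + (X - Y) = m := by omega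
    unfold Sh
    rw [e]
    exact ⟨⟨by omega, by omega⟩, by omega, by omega, hm.2⟩

lemma rgh_of_rough (f : ι → ℤ[X]) (r X Y : ℕ) (hr : 1 ≤ r) (hX : 4 ≤ X) (hY : 2 * Y ≤ X)
    (A : Set ℕ) (hA : ∀ m ∈ A, Rough f r m) (n : ℕ) (h : Sh A X Y n) : Rgh f (2 * r) X Y n := by
  intro p hp hq
  obtain ⟨i, hi⟩ := hq
  have h1 := hA _ h.2.2 i p (mem_pz.1 hp).2 hi
  have h2 := mem_pz' (by positivity) hp
  have hXr : (4 : ℝ) ≤ X := by exact_mod_cast hX
  have hX0 : (0 : ℝ) < X := by linarith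
  have hr0 : (0 : ℝ) < r := by exact_mod_cast (by omega : 0 < r)
  have hm : (X : ℝ) ≤ 2 * ((n + (X - Y) : ℕ) : ℝ) := by
    have : X ≤ 2 * (n + (X - Y)) := by omega
    exact_mod_cast this
  have h3 : (X : ℝ) ^ (1 / ((2 * r : ℕ) : ℝ)) ≤ ((n + (X - Y) : ℕ) : ℝ) ^ (1 / (r : ℝ)) := by
    calc (X : ℝ) ^ (1 / ((2 * r : ℕ) : ℝ)) = ((X : ℝ) ^ (1 / 2 : ℝ)) ^ (1 / (r : ℝ)) := by
          rw [← Real.rpow_mul hX0.le]
          congr 1
          push_cast
          field_simp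
      _ ≤ _ := by
          apply Real.rpow_le_rpow (by positivity) _ (by positivity)
          rw [← Real.sqrt_eq_rpow]
          have h4 : √(X : ℝ) ≤ X / 2 := by
            rw [Real.sqrt_le_left (by linarith)]
            nlinarith
          linarith
  linarith

open Classical in
theorem hereditary [Nonempty ι] (f : ι → ℤ[X]) (hf : Sys f) (θ : ℝ) (hθ : 0 < θ) (hθ1 : θ ≤ 1) :
    ∃ r0 : ℕ, 2 ≤ r0 ∧ ∀ r : ℕ, r0 ≤ r →
    ∀ ε : ℝ, 0 < ε → ∃ c : ℝ, 0 < c ∧ ∀ δ : ℝ, 0 < δ → ∃ B : ℕ,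
      ∀ᶠ X : ℕ in atTop, ∀ Y : ℕ, (X : ℝ) ^ θ ≤ Y → 2 * Y ≤ X →
        ∀ A : Set ℕ, (∀ m ∈ A, Rough f r m) →
        (N (Irregular A (Fintype.card ι) c δ B X Y) X (X + Y) : ℝ) ≤
            ε * Y / Real.log X ^ (Fintype.card ι) := by
  obtain ⟨r0, hr02, hup⟩ := upper_input f hf θ hθ hθ1
  refine ⟨r0, hr02, ?_⟩
  intro r hr ε hε
  obtain ⟨C1, C2, hC1, hC2, hin⟩ := hup (2 * r) (by omega)
  obtain ⟨c1, Lam, hc1, hLam, hpts⟩ := points C1 C2 hC1 hC2 ε hε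
  obtain ⟨c0, hc0def⟩ : ∃ c0 : ℝ, c0 = min c1 1 := ⟨_, rfl⟩
  have hc0 : 0 < c0 := by rw [hc0def]; exact lt_min hc1 one_pos
  have hc0c1 : c0 ≤ c1 := by rw [hc0def]; exact min_le_left _ _
  have hc01 : c0 ≤ 1 := by rw [hc0def]; exact min_le_right _ _
  obtain ⟨c, hcdef⟩ : ∃ c : ℝ, c = min (1 / (3 * Lam)) (c0 / 4) := ⟨_, rfl⟩
  have hc : 0 < c := by rw [hcdef]; positivity
  have hc4 : c ≤ c0 / 4 := by rw [hcdef]; exact min_le_right _ _
  have hcL : c ≤ 1 / (3 * Lam) := by rw [hcdef]; exact min_le_left _ _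
  refine ⟨c, hc, ?_⟩
  intro δ hδ
  obtain ⟨K, B0, hB0, hpts⟩ := hpts (min δ (c0 / 4)) (by positivity)
  obtain ⟨s0, hs0⟩ : ∃ s0 : ℕ, 2 / c0 ≤ (2 : ℝ) ^ s0 := by
    obtain ⟨j, hj⟩ := pow_unbounded_of_one_lt (2 / c0) (one_lt_two : (1 : ℝ) < 2)
    exact ⟨j, hj.le⟩
  refine ⟨K + s0, ?_⟩
  filter_upwards [hin (B0 + 1) (by positivity), eventually_ge_atTop 4] with X hX hX4 Y hXY hYX A hA
  obtain ⟨h1, h2, h3, h4⟩ := hX Y hXY (by omega)
  obtain ⟨L, hL⟩ : ∃ L, L = Real.log X ^ (Fintype.card ι) := ⟨_, rfl⟩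
  rw [← hL] at h1 h2 h3 h4
  have hL0 : 0 < L := by linarith
  have hLL : 0 < L ^ 2 := by positivity
  have hB0L : 0 ≤ B0 * L ^ 2 := by positivity
  have hLY : L ≤ Y := by nlinarith
  have hBX' : B0 * L ^ 2 ≤ Y := by nlinarith
  have hPP : ∀ n, Sh A X Y n → Rgh f (2 * r) X Y n :=
    rgh_of_rough f r X Y (by omega) hX4 hYX A hA
  have hbad := hpts (Sh A X Y) (Rgh f (2 * r) X Y) Y L h1 hBX' hPP h3 h4
  rw [← hL]
  refine le_trans ?_ hbad
  have hcoP : ∀ a b, co (Sh A X Y) a b ≤ co (Rgh f (2 * r) X Y) a b := by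
    intro a b
    unfold co
    apply card_le_card
    intro n hn
    rw [mem_filter] at hn ⊢
    exact ⟨hn.1, hPP n hn.2⟩
  have hle : ((Finset.Ioc X (X + Y)).filter (fun m =>
        m ∈ Irregular A (Fintype.card ι) c δ (K + s0) X Y)).card ≤
      ((Finset.Ioc Y (2 * Y)).filter (fun p => Sh A X Y p ∧ ¬ (
        (∀ H : ℕ, 1 ≤ H → H ≤ Y →
          c1 / L * H ≤ cl (Sh A X Y) p (p + H) ∧ c1 / L * H ≤ cl (Sh A X Y) (p + 1 - H) (p + 1)) ∧
        (∀ H : ℕ, ⌊L⌋₊ ≤ H → H ≤ Y →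
          (co (Rgh f (2 * r) X Y) p (p + H) : ℝ) ≤ Lam / L * H ∧
            (co (Rgh f (2 * r) X Y) (p - H) p : ℝ) ≤ Lam / L * H) ∧
        ((range (Nat.log 2 Y + 1)).filter (fun j => L ≤ (2 : ℝ) ^ j ∧
          ¬ Good (Sh A X Y) 0 Lam (min δ (c0 / 4)) L p j)).card ≤ K))).card := by
    apply Finset.card_le_card_of_injOn (fun m => m - (X - Y))
    · intro m hm
      rw [Finset.mem_coe, mem_filter, mem_Ioc] at hm
      obtain ⟨⟨hm1, hm2⟩, hm3, hm4⟩ := hm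
      obtain ⟨n, rfl⟩ : ∃ n, m = n + (X - Y) := ⟨m - (X - Y), by omega⟩
      have e : n + (X - Y) - (X - Y) = n := by omega
      have hn1 : Y < n := by omega
      have hn2 : n ≤ 2 * Y := by omega
      rw [Finset.mem_coe]
      beta_reduce
      rw [e, mem_filter, mem_Ioc]
      refine ⟨⟨hn1, hn2⟩, ⟨by omega, by omega, hm3⟩, ?_⟩
      rintro ⟨W1, W2, W3⟩
      apply hm4
      have hgood := local_good (Sh A X Y) n Y L c0 Lam c δ K s0 h1 hLY (by omega) hc0 hc01 hLam hc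
        hc4 hcL hδ hs0 (by
          intro H hH1 hH2
          have h3 : c0 / L * H ≤ c1 / L * H := by gcongr
          exact ⟨h3.trans (W1 H hH1 hH2).1, h3.trans (W1 H hH1 hH2).2⟩) (by
          intro H hH1 hH2
          have a1 := hcoP n (n + H)
          have a2 := hcoP (n - H) n
          have a1' : (co (Sh A X Y) n (n + H) : ℝ) ≤ co (Rgh f (2 * r) X Y) n (n + H) := by
            exact_mod_cast a1
          have a2' : (co (Sh A X Y) (n - H) n : ℝ) ≤ co (Rgh f (2 * r) X Y) (n - H) n := by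
            exact_mod_cast a2
          exact ⟨a1'.trans (W2 H hH1 hH2).1, a2'.trans (W2 H hH1 hH2).2⟩) W3
      obtain ⟨G1, G2⟩ := hgood
      have hshift : ∀ s t : ℕ, s ≤ Y → t ≤ Y → N A (n + (X - Y) - s) (n + (X - Y) + t) =
          co (Sh A X Y) (n - s) (n + t) := by
        intro s t hs ht
        rw [co_Sh A X Y _ _ (by omega)]
        congr 1 <;> omega
      constructor
      · intro s t hs ht hst
        rw [← hL] at hst ⊢
        rw [hshift s t hs ht]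
        exact G1 s t hs ht hst
      · refine le_trans ?_ G2
        unfold badScales
        apply card_le_card
        intro j hj
        rw [mem_filter] at hj ⊢
        obtain ⟨hj1, hj2, hj3⟩ := hj
        rw [← hL] at hj2
        refine ⟨hj1, hj2, ?_⟩
        rintro ⟨lam, g1, g2, g3⟩
        apply hj3
        have hjY : 2 ^ j ≤ Y := by
          have h6 : j ≤ Nat.log 2 Y := by
            rw [mem_range] at hj1
            omega
          have hY0 : Y ≠ 0 := by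
            rintro rfl
            simp at hLY
            linarith
          exact (Nat.pow_le_pow_right (by norm_num) h6).trans (Nat.pow_log_le_self 2 hY0)
        refine ⟨lam, g1, g2, ?_⟩
        intro s t hs ht
        rw [← hL, hshift s t (hs.trans hjY) (ht.trans hjY)]
        exact g3 s t hs ht
    · intro a ha b hb hab
      rw [Finset.mem_coe, mem_filter, mem_Ioc] at ha hb
      simp only at hab
      omega
  unfold N
  exact_mod_cast hle

open Classical in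
/-- **Regular neighbourhoods, arbitrary subsets.** -/
theorem neighbours [Nonempty ι] (f : ι → ℤ[X]) (hf : Sys f) (θ : ℝ) (hθ : 0 < θ) (hθ1 : θ ≤ 1) :
    ∃ r0 : ℕ, 2 ≤ r0 ∧ ∀ r : ℕ, r0 ≤ r →
    (∃ κ : ℝ, 0 < κ ∧ ∀ᶠ X : ℕ in atTop, ∀ Y : ℕ, (X : ℝ) ^ θ ≤ Y → Y ≤ X →
      κ * Y / Real.log X ^ (Fintype.card ι) ≤ N {m | Rough f r m ∧ Few f r m} X (X + Y)) ∧
    ∀ ε : ℝ, 0 < ε → ∃ c : ℝ, 0 < c ∧ ∀ δ : ℝ, 0 < δ → ∃ B : ℕ,
      ∀ᶠ X : ℕ in atTop, ∀ Y : ℕ, (X : ℝ) ^ θ ≤ Y → 2 * Y ≤ X →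
        ∀ A : Set ℕ, (∀ m ∈ A, Rough f r m) →
        (N (Irregular A (Fintype.card ι) c δ B X Y) X (X + Y) : ℝ) ≤
            ε * Y / Real.log X ^ (Fintype.card ι) := by
  obtain ⟨r0, hr0, h0⟩ := hereditary f hf θ hθ hθ1
  obtain ⟨r1, hr1, h1⟩ := lower_input f hf θ hθ hθ1
  refine ⟨max r0 r1, hr0.trans (le_max_left _ _), ?_⟩
  intro r hr
  refine ⟨?_, h0 r ((le_max_left _ _).trans hr)⟩
  obtain ⟨κ, hκ, h⟩ := h1 r ((le_max_right _ _).trans hr)
  refine ⟨κ, hκ, ?_⟩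
  filter_upwards [h] with X hX Y hXY hYX
  refine (hX Y hXY hYX).trans ?_
  have h3 : ((Finset.Ioc X (X + Y)).filter (fun m => Rough f r m ∧ Few f r m)).card ≤
      N {m | Rough f r m ∧ Few f r m} X (X + Y) := by
    apply card_le_N _ _ _ _ id (Function.injective_id.injOn)
    intro m hm
    rw [mem_filter, mem_Ioc] at hm
    exact ⟨hm.1.1, hm.1.2, hm.2⟩
  exact_mod_cast h3

end Pool.Agent.TH977.PW
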