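import Pool.Agent.TH464.PW.Input
import Pool.Agent.W123.PP.Local

set_option autoImplicit false

/-!
# Sieve input for rough values of a system of polynomials, all roughness exponents

Adapted from `TH464.PW.Input`.
-/

namespace Pool.Agent.TH977.PW

open Polynomial Finset Filter
open Pool.Agent.W123.RP Pool.Agent.H373R2.T7 Pool.Agent.W123.RU Pool.Agent.W123.RU.Poly
open Pool.Agent.TH464.PW

variable {ι : Type} [Fintype ι]

/-- every prime factor of every value `f i (m)` is larger than `m ^ (1 / r)` -/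
def Rough (f : ι → ℤ[X]) (r m : ℕ) : Prop :=
  ∀ i, ∀ p : ℕ, p.Prime → (p : ℤ) ∣ (f i).eval (m : ℤ) → (m : ℝ) ^ (1 / (r : ℝ)) < (p : ℝ)

/-- every value `f i (m)` has at most `r` prime factors, with multiplicity -/
def Few (f : ι → ℤ[X]) (r m : ℕ) : Prop :=
  ∀ i, ((f i).eval (m : ℤ)).natAbs.primeFactorsList.length ≤ r

open Classical in
theorem upper_input [Nonempty ι] (f : ι → ℤ[X]) (hf : Sys f) (θ : ℝ) (hθ : 0 < θ) (hθ1 : θ ≤ 1) :
    ∃ K1 : ℕ, 2 ≤ K1 ∧ ∀ r : ℕ, K1 ≤ r → ∃ (C1 C2 : ℝ), 0 < C1 ∧ 0 < C2 ∧ ∀ B0 : ℝ, 0 < B0 →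
      ∀ᶠ X : ℕ in atTop, ∀ Y : ℕ, (X : ℝ) ^ θ ≤ Y → Y ≤ X →
        2 ≤ Real.log X ^ (Fintype.card ι) ∧
        B0 * (Real.log X ^ (Fintype.card ι)) ^ 2 ≤ Y ∧
        (co (Rgh f r X Y) 0 (4 * Y) : ℝ) ≤ C1 * Y / Real.log X ^ (Fintype.card ι) ∧
        ∑ n ∈ Finset.Ico Y (2 * Y + 1),
          ((co (Rgh f r X Y) n (n + ⌊Real.log X ^ (Fintype.card ι)⌋₊) : ℝ)) ^ 2 ≤ C2 * Y := by
  obtain ⟨k, hk⟩ : ∃ k, k = Fintype.card ι := ⟨_, rfl⟩
  have hk1 : 1 ≤ k := by rw [hk]; exact Fintype.card_pos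
  rw [← hk]
  obtain ⟨c, hc, hQ⟩ := exists_c f hf
  obtain ⟨D', e, hlarge⟩ := exists_large f hf
  obtain ⟨v, Cv, hv, hCv, hV⟩ := V_bounds f hf
  rw [← hk] at hV
  obtain ⟨K1, hK1, hmain⟩ := Pool.Agent.W123.PP.sieve_inputE c (2 * c) (c ^ 2) D' e hc
  refine ⟨K1, hK1, ?_⟩
  intro r hrK
  have hr2 : 2 ≤ r := hK1.trans hrK
  have hrr : (2 : ℝ) ≤ r := by exact_mod_cast hr2
  have hrpos : (0 : ℝ) < r := by linarith
  set C3 : ℝ := Cv * (2 * r / θ) ^ k with hC3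
  have hC30 : 0 < C3 := by positivity
  obtain ⟨C1, C2, hC1, hC2, hin⟩ := hmain r hrK C3 hC30
  refine ⟨C1, C2, hC1, hC2, ?_⟩
  intro B0 hB0
  obtain ⟨L0, hL0⟩ := hin B0 hB0
  obtain ⟨Y1, hY1⟩ := eventually_atTop.1 hL0
  have hXr : Tendsto (fun X : ℕ => (X : ℝ)) atTop atTop := tendsto_natCast_atTop_atTop
  have hpow : Tendsto (fun X : ℕ => (X : ℝ) ^ θ) atTop atTop := (tendsto_rpow_atTop hθ).comp hXr
  have hpow2 : Tendsto (fun X : ℕ => (X : ℝ) ^ (θ / (2 * r))) atTop atTop :=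
    (tendsto_rpow_atTop (by positivity)).comp hXr
  have hlogX : Tendsto (fun X : ℕ => Real.log (X : ℝ)) atTop atTop :=
    Real.tendsto_log_atTop.comp hXr
  filter_upwards [hpow.eventually_ge_atTop ((Y1 : ℝ) + 16), hpow2.eventually_ge_atTop 3,
    hlogX.eventually_ge_atTop ((2 + |L0|) / θ), logpow_rpow (8 * k) 1 θ one_pos hθ,
    eventually_ge_atTop 16] with X hX1 hX2 hX3 hX4 hX16
  intro Y hXY hYX
  have hX16r : (16 : ℝ) ≤ X := by exact_mod_cast hX16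
  have hXpos : (0 : ℝ) < X := by linarith
  have hYXr : (Y : ℝ) ≤ X := by exact_mod_cast hYX
  have hY1r : (0 : ℝ) ≤ Y1 := Nat.cast_nonneg _
  have hY16 : (16 : ℝ) ≤ Y := by linarith
  have hYpos : (0 : ℝ) < Y := by linarith
  have hYone : (1 : ℝ) ≤ Y := by linarith
  have hYn : 16 ≤ Y := by exact_mod_cast hY16
  have hYY1 : Y1 ≤ Y := by
    have : (Y1 : ℝ) ≤ Y := by linarith
    exact_mod_cast this
  obtain ⟨s, hs⟩ : ∃ s, s = X - Y := ⟨_, rfl⟩
  have hlogY : θ * Real.log X ≤ Real.log Y := by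
    rw [← Real.log_rpow hXpos]
    exact Real.log_le_log (by positivity) hXY
  have hlogYX : Real.log Y ≤ Real.log X := Real.log_le_log hYpos hYXr
  have hL0a : 0 ≤ |L0| := abs_nonneg _
  have hθlog : 2 + |L0| ≤ θ * Real.log X := by
    rw [div_le_iff₀ hθ] at hX3
    linarith
  have hlY2 : 2 + |L0| ≤ Real.log Y := by linarith
  have hlX2 : 2 + |L0| ≤ Real.log X := by linarith
  have hlX1 : 1 ≤ Real.log X := by linarith
  have hlX0 : 0 < Real.log X := by linarith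
  have hlY0 : 0 < Real.log Y := by linarith
  set L : ℝ := Real.log X ^ k with hL
  have hlL : Real.log X ≤ L := by
    calc Real.log X = Real.log X ^ 1 := (pow_one _).symm
      _ ≤ Real.log X ^ k := pow_le_pow_right₀ hlX1 hk1
  have hLpos : 0 < L := by linarith
  have hL8 : L ^ 8 ≤ Y := by
    rw [hL, ← pow_mul, mul_comm k 8]
    linarith
  have hYr : (3 : ℝ) ≤ (Y : ℝ) ^ (1 / (2 * r : ℝ)) := by
    refine le_trans hX2 ?_
    calc (X : ℝ) ^ (θ / (2 * r)) = ((X : ℝ) ^ θ) ^ (1 / (2 * r : ℝ)) := by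
          rw [← Real.rpow_mul hXpos.le]
          congr 1
          ring
      _ ≤ _ := Real.rpow_le_rpow (by positivity) hXY (by positivity)
  obtain ⟨hy1, hy2, hy3, hy4⟩ := level_low r hr2 Y (by omega) (by linarith)
  have hy5 : 3 ≤ ⌊(Y : ℝ) ^ (1 / (r : ℝ))⌋₊ := by
    have : (3 : ℝ) ≤ ⌊(Y : ℝ) ^ (1 / (r : ℝ))⌋₊ := hYr.trans hy1
    exact_mod_cast this
  have hylog : 0 < Real.log ⌊(Y : ℝ) ^ (1 / (r : ℝ))⌋₊ := lt_of_lt_of_le (by positivity) hy2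
  have hVy : Vq (Qs f s) ⌊(Y : ℝ) ^ (1 / (r : ℝ))⌋₊ ≤ C3 / L := by
    rw [Vq_Qs f c hQ]
    refine (hV _ hy5).2.trans ?_
    have h1 : (θ * Real.log X / (2 * r)) ^ k ≤ Real.log ⌊(Y : ℝ) ^ (1 / (r : ℝ))⌋₊ ^ k := by
      apply pow_le_pow_left₀ (by positivity)
      refine le_trans ?_ hy2
      gcongr
    calc Cv / Real.log ⌊(Y : ℝ) ^ (1 / (r : ℝ))⌋₊ ^ k ≤ Cv / (θ * Real.log X / (2 * r)) ^ k := by
          gcongr
      _ = C3 / L := by
          rw [hC3, hL, div_pow, mul_pow, div_pow]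
          field_simp
  obtain ⟨E0, hE0, hlarge'⟩ := hlarge ⌊L⌋₊
  have hexp : (Y : ℝ) ^ (1 / (r : ℝ)) ≤ (X : ℝ) ^ (1 / (r : ℝ)) :=
    Real.rpow_le_rpow hYpos.le hYXr (by positivity)
  exact hY1 Y hYY1 (Qs f s) (CoG (Q f)) L E0 (sdata_Qs f hf c hQ s)
    (by
      have := le_abs_self L0
      linarith) hL8 hVy hE0 (hlarge' _) (Rgh f r X Y) (by
      intro m hm _ _ p hp
      have := hm p (by
        rw [mem_pz] at hp ⊢
        exact ⟨hp.1.trans (Nat.floor_le_floor hexp), hp.2⟩)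
      rw [← hs] at this
      exact this)

open Classical in
theorem lower_input [Nonempty ι] (f : ι → ℤ[X]) (hf : Sys f) (θ : ℝ) (hθ : 0 < θ) (hθ1 : θ ≤ 1) :
    ∃ r1 : ℕ, 2 ≤ r1 ∧ ∀ r : ℕ, r1 ≤ r → ∃ κ : ℝ, 0 < κ ∧ ∀ᶠ X : ℕ in atTop, ∀ Y : ℕ,
      (X : ℝ) ^ θ ≤ Y → Y ≤ X → κ * Y / Real.log X ^ (Fintype.card ι) ≤
        (((Finset.Ioc X (X + Y)).filter (fun m => Rough f r m ∧ Few f r m)).card : ℝ) := by
  obtain ⟨k, hk⟩ : ∃ k, k = Fintype.card ι := ⟨_, rfl⟩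
  have hk1 : 1 ≤ k := by rw [hk]; exact Fintype.card_pos
  rw [← hk]
  obtain ⟨c, hc, hQ⟩ := exists_c f hf
  obtain ⟨v, Cv, hv, hCv, hV⟩ := V_bounds f hf
  rw [← hk] at hV
  obtain ⟨K2, hK2, hlow⟩ := rough_lower c hc
  choose Ki Di hKD using fun i => eval_bound (f i)
  obtain ⟨A, hA⟩ : ∃ A : ℕ, A = 1 + ∑ i, Ki i := ⟨_, rfl⟩
  obtain ⟨d, hd⟩ : ∃ d : ℕ, d = ∑ i, Di i := ⟨_, rfl⟩
  obtain ⟨r0, hr0⟩ : ∃ r0 : ℕ, r0 = max K2 2 := ⟨_, rfl⟩
  have hr0K : K2 ≤ r0 := by rw [hr0]; exact le_max_left _ _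
  have hr02 : 2 ≤ r0 := by rw [hr0]; exact le_max_right _ _
  have hr0r : (2 : ℝ) ≤ r0 := by exact_mod_cast hr02
  have hr0pos : (0 : ℝ) < r0 := by linarith
  obtain ⟨R0, hR0⟩ : ∃ R0 : ℕ, ((d : ℝ) + 2) * r0 / θ ≤ R0 := exists_nat_ge _
  refine ⟨max R0 2, le_max_right _ _, ?_⟩
  intro r hr
  have hrR : R0 ≤ r := (le_max_left _ _).trans hr
  have hr2 : 2 ≤ r := (le_max_right _ _).trans hr
  have hrr : (2 : ℝ) ≤ r := by exact_mod_cast hr2
  have hrpos : (0 : ℝ) < r := by linarith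
  have hd0 : (0 : ℝ) ≤ d := Nat.cast_nonneg d
  have hrθ : ((d : ℝ) + 2) * r0 ≤ θ * r := by
    have h1 : ((d : ℝ) + 2) * r0 / θ ≤ r := hR0.trans (by exact_mod_cast hrR)
    rw [div_le_iff₀ hθ] at h1
    linarith
  have hr0θ : 2 * (r0 : ℝ) ≤ θ * r := by nlinarith
  refine ⟨v / 2, by positivity, ?_⟩
  obtain ⟨Y2, hY2⟩ := eventually_atTop.1 (hlow r0 hr0K (k + 1))
  have hXr : Tendsto (fun X : ℕ => (X : ℝ)) atTop atTop := tendsto_natCast_atTop_atTop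
  have hpow : Tendsto (fun X : ℕ => (X : ℝ) ^ θ) atTop atTop := (tendsto_rpow_atTop hθ).comp hXr
  have hpow2 : Tendsto (fun X : ℕ => (X : ℝ) ^ (θ / (2 * r0))) atTop atTop :=
    (tendsto_rpow_atTop (by positivity)).comp hXr
  have hlogX : Tendsto (fun X : ℕ => Real.log (X : ℝ)) atTop atTop :=
    Real.tendsto_log_atTop.comp hXr
  filter_upwards [hpow.eventually_ge_atTop ((Y2 : ℝ) + 16), hpow2.eventually_ge_atTop 3,
    hlogX.eventually_ge_atTop ((2 + 1 / v) / θ),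
    eventually_ge_atTop (max 16 (A * 5 ^ d))] with X hX1 hX2 hX3 hX5
  intro Y hXY hYX
  have hX16 : 16 ≤ X := (le_max_left _ _).trans hX5
  have hXA : A * 5 ^ d ≤ X := (le_max_right _ _).trans hX5
  have hX16r : (16 : ℝ) ≤ X := by exact_mod_cast hX16
  have hXpos : (0 : ℝ) < X := by linarith
  have hXone : (1 : ℝ) ≤ X := by linarith
  have hYXr : (Y : ℝ) ≤ X := by exact_mod_cast hYX
  have hY2r : (0 : ℝ) ≤ Y2 := Nat.cast_nonneg _
  have hY16 : (16 : ℝ) ≤ Y := by linarith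
  have hYpos : (0 : ℝ) < Y := by linarith
  have hYone : (1 : ℝ) ≤ Y := by linarith
  have hYn : 16 ≤ Y := by exact_mod_cast hY16
  have hYY2 : Y2 ≤ Y := by
    have : (Y2 : ℝ) ≤ Y := by linarith
    exact_mod_cast this
  obtain ⟨s, hs⟩ : ∃ s, s = X - Y := ⟨_, rfl⟩
  have hlogY : θ * Real.log X ≤ Real.log Y := by
    rw [← Real.log_rpow hXpos]
    exact Real.log_le_log (by positivity) hXY
  have hlogYX : Real.log Y ≤ Real.log X := Real.log_le_log hYpos hYXr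
  have hv1 : 0 < 1 / v := by positivity
  have hθlog : 2 + 1 / v ≤ θ * Real.log X := by
    rw [div_le_iff₀ hθ] at hX3
    linarith
  have hlY2 : 2 + 1 / v ≤ Real.log Y := by linarith
  have hlX2 : 2 + 1 / v ≤ Real.log X := by linarith
  have hlX0 : 0 < Real.log X := by linarith
  have hlY0 : 0 < Real.log Y := by linarith
  set L : ℝ := Real.log X ^ k with hL
  have hLpos : 0 < L := by positivity
  have hYr0 : (3 : ℝ) ≤ (Y : ℝ) ^ (1 / (2 * r0 : ℝ)) := by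
    refine le_trans hX2 ?_
    calc (X : ℝ) ^ (θ / (2 * r0)) = ((X : ℝ) ^ θ) ^ (1 / (2 * r0 : ℝ)) := by
          rw [← Real.rpow_mul hXpos.le]
          congr 1
          ring
      _ ≤ _ := Real.rpow_le_rpow (by positivity) hXY (by positivity)
  obtain ⟨hz1, hz2, hz3, hz4⟩ := level_low r0 hr02 Y (by omega) (by linarith)
  have hz5 : 3 ≤ ⌊(Y : ℝ) ^ (1 / (r0 : ℝ))⌋₊ := by
    have : (3 : ℝ) ≤ ⌊(Y : ℝ) ^ (1 / (r0 : ℝ))⌋₊ := hYr0.trans hz1
    exact_mod_cast this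
  have hzlog : 0 < Real.log ⌊(Y : ℝ) ^ (1 / (r0 : ℝ))⌋₊ := lt_of_lt_of_le (by positivity) hz2
  have hVz : v / L ≤ Vq (Q f) ⌊(Y : ℝ) ^ (1 / (r0 : ℝ))⌋₊ := by
    refine le_trans ?_ (hV _ hz5).1
    rw [hL]
    apply div_le_div_of_nonneg_left hv.le (by positivity)
    exact pow_le_pow_left₀ hzlog.le (hz3.trans hlogYX) k
  have hlw := hY2 Y hYY2 (Qs f s) (perB_Qs f c hQ s) (by
    rw [Vq_Qs f c hQ]
    refine le_trans ?_ (hV _ hz5).1
    rw [div_le_div_iff₀ (by positivity) (by positivity), one_mul]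
    have h2 : 1 ≤ v * Real.log Y := by
      have : 1 / v ≤ Real.log Y := by linarith
      rw [div_le_iff₀ hv] at this
      linarith
    calc Real.log ⌊(Y : ℝ) ^ (1 / (r0 : ℝ))⌋₊ ^ k ≤ Real.log Y ^ k :=
          pow_le_pow_left₀ hzlog.le hz3 k
      _ = Real.log Y ^ k * 1 := (mul_one _).symm
      _ ≤ Real.log Y ^ k * (v * Real.log Y) := by gcongr
      _ = v * Real.log Y ^ (k + 1) := by ring)
  rw [Vq_Qs f c hQ] at hlw
  have hl1 : v / 2 * Y / L ≤ Vq (Q f) ⌊(Y : ℝ) ^ (1 / (r0 : ℝ))⌋₊ * Y / 2 := by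
    calc v / 2 * Y / L = v / L * Y / 2 := by ring
      _ ≤ _ := by gcongr
  refine hl1.trans (hlw.trans ?_)
  have hz0 : (2 : ℝ) ≤ (Y : ℝ) ^ (1 / (r0 : ℝ)) := by
    have h6 : ((⌊(Y : ℝ) ^ (1 / (r0 : ℝ))⌋₊ : ℕ) : ℝ) ≤ (Y : ℝ) ^ (1 / (r0 : ℝ)) :=
      Nat.floor_le (by positivity)
    have h7 : (2 : ℝ) ≤ ((⌊(Y : ℝ) ^ (1 / (r0 : ℝ))⌋₊ : ℕ) : ℝ) := by exact_mod_cast hz4
    linarith
  have hXz : (X : ℝ) ^ (θ / r0) ≤ (Y : ℝ) ^ (1 / (r0 : ℝ)) := by
    calc (X : ℝ) ^ (θ / r0) = ((X : ℝ) ^ θ) ^ (1 / (r0 : ℝ)) := by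
          rw [← Real.rpow_mul hXpos.le]
          congr 1
          ring
      _ ≤ _ := Real.rpow_le_rpow (by positivity) hXY (by positivity)
  have hXz2 : ((X : ℝ) ^ (2 : ℝ)) ^ (1 / (r : ℝ)) ≤ (Y : ℝ) ^ (1 / (r0 : ℝ)) := by
    refine le_trans ?_ hXz
    rw [← Real.rpow_mul hXpos.le]
    apply Real.rpow_le_rpow_of_exponent_le hXone
    rw [mul_one_div, div_le_div_iff₀ hrpos hr0pos]
    linarith
  have hbig : (X : ℝ) ^ (d + 2) ≤ ((Y : ℝ) ^ (1 / (r0 : ℝ))) ^ (r + 1) := by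
    calc (X : ℝ) ^ (d + 2) = (X : ℝ) ^ ((d : ℝ) + 2) := by
          rw [← Real.rpow_natCast]
          push_cast
          rfl
      _ ≤ (X : ℝ) ^ (θ / r0 * r) := by
          apply Real.rpow_le_rpow_of_exponent_le hXone
          rw [div_mul_eq_mul_div, le_div_iff₀ hr0pos]
          linarith
      _ = ((X : ℝ) ^ (θ / r0)) ^ r := by
          rw [Real.rpow_mul hXpos.le, Real.rpow_natCast]
      _ ≤ ((Y : ℝ) ^ (1 / (r0 : ℝ))) ^ r := pow_le_pow_left₀ (by positivity) hXz r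
      _ ≤ ((Y : ℝ) ^ (1 / (r0 : ℝ))) ^ (r + 1) := pow_le_pow_right₀ (by linarith) (by omega)
  have hinj : ((Finset.Ioc Y (2 * Y)).filter (fun n =>
        ∀ p ∈ pz ⌊(Y : ℝ) ^ (1 / (r0 : ℝ))⌋₊, ¬ Qs f s p n)).card ≤
      ((Finset.Ioc X (X + Y)).filter (fun m => Rough f r m ∧ Few f r m)).card := by
    apply Finset.card_le_card_of_injOn (fun n => n + s)
    · intro n hn
      rw [Finset.mem_coe, mem_filter, mem_Ioc] at hn
      obtain ⟨⟨hn1, hn2⟩, hn3⟩ := hn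
      rw [Finset.mem_coe, mem_filter, mem_Ioc]
      beta_reduce
      have hrough : ∀ i, ∀ p : ℕ, p.Prime → (p : ℤ) ∣ (f i).eval ((n + s : ℕ) : ℤ) →
          (Y : ℝ) ^ (1 / (r0 : ℝ)) < p := by
        intro i p hp hdv
        exact not_mem_pz hp (fun h => hn3 p h ⟨i, hdv⟩)
      refine ⟨⟨by omega, by omega⟩, ?_, ?_⟩
      · intro i p hp hdv
        refine lt_of_le_of_lt ?_ (hrough i p hp hdv)
        refine le_trans ?_ hXz2
        apply Real.rpow_le_rpow (by positivity) _ (by positivity)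
        have h9 : n + s ≤ 2 * X := by omega
        have h10 : ((n + s : ℕ) : ℝ) ≤ 2 * X := by exact_mod_cast h9
        rw [Real.rpow_two]
        nlinarith
      · intro i
        have hne : (f i).eval ((n + s : ℕ) : ℤ) ≠ 0 := by
          intro h0
          have := hrough i 2 Nat.prime_two (by rw [h0]; exact dvd_zero _)
          push_cast at this
          linarith
        apply length_le _ r (Int.natAbs_ne_zero.2 hne) ((Y : ℝ) ^ (1 / (r0 : ℝ)))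
        · intro p hp hdv
          exact hrough i p hp (Int.natCast_dvd.2 hdv)
        · have h8 := hKD i ((n + s : ℕ) : ℤ)
          have e1 : ((((f i).eval ((n + s : ℕ) : ℤ)).natAbs : ℕ) : ℝ) =
              |(((f i).eval ((n + s : ℕ) : ℤ) : ℤ) : ℝ)| := by
            rw [Nat.cast_natAbs, Int.cast_abs]
          have e2 : |(((n + s : ℕ) : ℤ) : ℝ)| = ((n + s : ℕ) : ℝ) := by
            rw [Int.cast_natCast, abs_of_nonneg (Nat.cast_nonneg _)]
          rw [e1]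
          rw [e2] at h8
          have hm5 : (1 : ℝ) + ((n + s : ℕ) : ℝ) ≤ 5 * X := by
            have h9 : n + s ≤ 4 * X := by omega
            have h10 : ((n + s : ℕ) : ℝ) ≤ 4 * X := by exact_mod_cast h9
            linarith
          have hm6 : (1 : ℝ) ≤ 1 + ((n + s : ℕ) : ℝ) := by
            have : (0 : ℝ) ≤ ((n + s : ℕ) : ℝ) := Nat.cast_nonneg _
            linarith
          have hKA : (Ki i : ℝ) ≤ A := by
            have h9 : Ki i ≤ ∑ i, Ki i :=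
              Finset.single_le_sum (f := Ki) (fun _ _ => Nat.zero_le _) (mem_univ i)
            have h10 : Ki i ≤ A := by omega
            exact_mod_cast h10
          have hDd : Di i ≤ d := by
            rw [hd]
            exact Finset.single_le_sum (f := Di) (fun _ _ => Nat.zero_le _) (mem_univ i)
          have hXA' : (A : ℝ) * 5 ^ d ≤ X := by exact_mod_cast hXA
          calc |(((f i).eval ((n + s : ℕ) : ℤ) : ℤ) : ℝ)| ≤
                Ki i * (1 + ((n + s : ℕ) : ℝ)) ^ Di i := h8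
            _ ≤ A * (1 + ((n + s : ℕ) : ℝ)) ^ d := by
              apply mul_le_mul hKA (pow_le_pow_right₀ hm6 hDd) (by positivity) (by positivity)
            _ ≤ A * (5 * X) ^ d := by gcongr
            _ = A * 5 ^ d * (X : ℝ) ^ d := by rw [mul_pow]; ring
            _ ≤ X * (X : ℝ) ^ d := by gcongr
            _ = (X : ℝ) ^ (d + 1) := by rw [pow_succ]; ring
            _ ≤ (X : ℝ) ^ (d + 2) := pow_le_pow_right₀ hXone (by omega)
            _ ≤ _ := hbig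
        · linarith
    · intro a _ b _ hab
      simp only at hab
      omega
  exact_mod_cast hinj

end Pool.Agent.TH977.PW
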