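import Pool.Agent.TH977.PW.Final
import Pool.Agent.TH464.PW.Quad

set_option autoImplicit false

/-!
# Systems of linear forms and quadratic polynomials
-/

namespace Pool.Agent.TH977.PW

open Polynomial Finset Filter
open Pool.Agent.W123.RP Pool.Agent.H373R2.T7 Pool.Agent.W123.RU Pool.Agent.W123.RU.Poly
open Pool.Agent.W182.PW

lemma rpow_lt (r p : ℕ) (hr : 2 ≤ r) (hp : 2 ≤ p) : (p : ℝ) ^ (1 / (r : ℝ)) < (p : ℝ) := by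
  have hp1 : (1 : ℝ) < p := by exact_mod_cast (by omega : 1 < p)
  have hr1 : (1 : ℝ) < r := by exact_mod_cast (by omega : 1 < r)
  calc (p : ℝ) ^ (1 / (r : ℝ)) < (p : ℝ) ^ (1 : ℝ) := by
        apply Real.rpow_lt_rpow_of_exponent_lt hp1
        rw [div_lt_one (by linarith)]
        exact hr1
    _ = p := Real.rpow_one _

lemma rpow_lt_of_le (r p q : ℕ) (hr : 2 ≤ r) (hp : 2 ≤ p) (h : p ≤ q) :
    (p : ℝ) ^ (1 / (r : ℝ)) < (q : ℝ) :=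
  (rpow_lt r p hr hp).trans_le (by exact_mod_cast h)

/-- a prime divisor of a prime `p` is larger than `p ^ (1 / r)` -/
lemma rpow_lt_dvd (r p q : ℕ) (hr : 2 ≤ r) (hp : p.Prime) (hq : q.Prime) (h : q ∣ p) :
    (p : ℝ) ^ (1 / (r : ℝ)) < (q : ℝ) := by
  rw [(Nat.prime_dvd_prime_iff_eq hq hp).1 h]
  exact rpow_lt r p hr hp.two_le

/-- systems of linear forms -/
lemma sys_lin {ι : Type} [Fintype ι] (a : ι → ℕ) (b : ι → ℤ) (ha : ∀ i, 0 < a i)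
    (hab : ∀ i, IsCoprime (a i : ℤ) (b i)) (hinj : ∀ i j, a i = a j → b i = b j → i = j)
    (hadm : ∀ p : ℕ, p.Prime → ∃ m : ℕ, ∀ i, ¬ (p : ℤ) ∣ (a i : ℤ) * m + b i) :
    Sys (fun i => lin (a i) (b i)) where
  irr := fun i => lin_irr _ _ (ha i) (hab i)
  deg := fun i => lin_deg _ _ (ha i)
  lead := fun i => lin_lead _ _ (ha i)
  inj := fun i j hij => hinj i j (lin_inj hij).1 (lin_inj hij).2
  adm := fun p hp => by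
    obtain ⟨m, hm⟩ := hadm p hp
    refine ⟨m, fun i => ?_⟩
    rw [lin_eval]
    exact hm i

lemma rough_lin {ι : Type} (a : ι → ℕ) (b : ι → ℤ) (r m : ℕ) :
    Rough (fun i => lin (a i) (b i)) r m ↔ ∀ i, ∀ p : ℕ, p.Prime → (p : ℤ) ∣ (a i : ℤ) * m + b i →
      (m : ℝ) ^ (1 / (r : ℝ)) < (p : ℝ) := by
  unfold Rough
  simp only [lin_eval]

lemma few_lin {ι : Type} (a : ι → ℕ) (b : ι → ℤ) (r m : ℕ) :
    Few (fun i => lin (a i) (b i)) r m ↔ ∀ i,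
      ((a i : ℤ) * m + b i).natAbs.primeFactorsList.length ≤ r := by
  unfold Few
  simp only [lin_eval]

/-- linear forms, integer arguments -/
theorem final_lin {ι : Type} [Fintype ι] [Nonempty ι] (a : ι → ℕ) (b : ι → ℤ) (ha : ∀ i, 0 < a i)
    (hab : ∀ i, IsCoprime (a i : ℤ) (b i)) (hinj : ∀ i j, a i = a j → b i = b j → i = j)
    (hadm : ∀ p : ℕ, p.Prime → ∃ m : ℕ, ∀ i, ¬ (p : ℤ) ∣ (a i : ℤ) * m + b i)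
    (R Al : ℕ → Set ℕ) (k : ℕ) (hk : Fintype.card ι = k)
    (hR : ∀ r m : ℕ, 2 ≤ r → m ∈ R r → ∀ i, ∀ p : ℕ, p.Prime → (p : ℤ) ∣ (a i : ℤ) * m + b i →
      (m : ℝ) ^ (1 / (r : ℝ)) < (p : ℝ))
    (hAl : ∀ r m : ℕ, 2 ≤ r → (∀ i, ∀ p : ℕ, p.Prime → (p : ℤ) ∣ (a i : ℤ) * m + b i →
      (m : ℝ) ^ (1 / (r : ℝ)) < (p : ℝ)) →
      (∀ i, ((a i : ℤ) * m + b i).natAbs.primeFactorsList.length ≤ r) → m ∈ Al r)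
    (θ : ℝ) (hθ : 0 < θ) (hθ1 : θ ≤ 1) :
    ∃ r0 : ℕ, 2 ≤ r0 ∧ ∀ r : ℕ, r0 ≤ r →
    (∃ κ : ℝ, 0 < κ ∧ ∀ᶠ X : ℕ in atTop, ∀ Y : ℕ, (X : ℝ) ^ θ ≤ Y → Y ≤ X →
      κ * Y / Real.log X ^ k ≤ N (Al r) X (X + Y)) ∧
    ∀ ε : ℝ, 0 < ε → ∃ c : ℝ, 0 < c ∧ ∀ δ : ℝ, 0 < δ → ∃ B : ℕ,
      ∀ᶠ X : ℕ in atTop, ∀ Y : ℕ, (X : ℝ) ^ θ ≤ Y → 2 * Y ≤ X →
        ∀ A : Set ℕ, A ⊆ R r →
        (N (Irregular A k c δ B X Y) X (X + Y) : ℝ) ≤ ε * Y / Real.log X ^ k :=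
  final (fun i => lin (a i) (b i)) (sys_lin a b ha hab hinj hadm) R Al k hk
    (fun r m h2r h => (rough_lin a b r m).2 (hR r m h2r h))
    (fun r m h2r h1 h2 => hAl r m h2r ((rough_lin a b r m).1 h1) ((few_lin a b r m).1 h2)) θ hθ hθ1

/-- linear forms, prime arguments -/
theorem final_lin_prime {ι : Type} [Fintype ι] (a : ι → ℕ) (b : ι → ℤ) (ha : ∀ i, 0 < a i)
    (hab : ∀ i, IsCoprime (a i : ℤ) (b i)) (hinj : ∀ i j, a i = a j → b i = b j → i = j)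
    (hX : ∀ i, ¬ (a i = 1 ∧ b i = 0))
    (hadm : ∀ p : ℕ, p.Prime → ∃ m : ℕ, ¬ p ∣ m ∧ ∀ i, ¬ (p : ℤ) ∣ (a i : ℤ) * m + b i)
    (R Al : ℕ → Set ℕ) (k : ℕ) (hk : Fintype.card ι + 1 = k)
    (hR : ∀ r m : ℕ, 2 ≤ r → m ∈ R r → (∀ p : ℕ, p.Prime → p ∣ m → (m : ℝ) ^ (1 / (r : ℝ)) < (p : ℝ)) ∧
      ∀ i, ∀ p : ℕ, p.Prime → (p : ℤ) ∣ (a i : ℤ) * m + b i →
      (m : ℝ) ^ (1 / (r : ℝ)) < (p : ℝ))
    (hAl : ∀ r m : ℕ, 2 ≤ r → m.Prime → (∀ i, ∀ p : ℕ, p.Prime → (p : ℤ) ∣ (a i : ℤ) * m + b i →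
      (m : ℝ) ^ (1 / (r : ℝ)) < (p : ℝ)) →
      (∀ i, ((a i : ℤ) * m + b i).natAbs.primeFactorsList.length ≤ r) → m ∈ Al r)
    (θ : ℝ) (hθ : 0 < θ) (hθ1 : θ ≤ 1) :
    ∃ r0 : ℕ, 2 ≤ r0 ∧ ∀ r : ℕ, r0 ≤ r →
    (∃ κ : ℝ, 0 < κ ∧ ∀ᶠ X : ℕ in atTop, κ * X / Real.log X ^ k ≤ N (Al r) X (2 * X)) ∧
    ∀ ε : ℝ, 0 < ε → ∃ c : ℝ, 0 < c ∧ ∀ δ : ℝ, 0 < δ → ∃ B : ℕ,
      ∀ᶠ X : ℕ in atTop, ∀ Y : ℕ, (X : ℝ) ^ θ ≤ Y → 2 * Y ≤ X →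
        ∀ A : Set ℕ, A ⊆ R r →
        (N (Irregular A k c δ B X Y) X (X + Y) : ℝ) ≤ ε * Y / Real.log X ^ k :=
  final_prime (fun i => lin (a i) (b i)) (fun i => lin_irr _ _ (ha i) (hab i))
    (fun i => lin_deg _ _ (ha i)) (fun i => lin_lead _ _ (ha i))
    (fun i j hij => hinj i j (lin_inj hij).1 (lin_inj hij).2) (fun i => lin_ne_X (hX i))
    (fun p hp => by
      obtain ⟨m, h1, h2⟩ := hadm p hp
      refine ⟨m, h1, fun i => ?_⟩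
      rw [lin_eval]
      exact h2 i) R Al k hk
    (fun r m h2r h => ⟨(hR r m h2r h).1, (rough_lin a b r m).2 (hR r m h2r h).2⟩)
    (fun r m h2r h0 h1 h2 => hAl r m h2r h0 ((rough_lin a b r m).1 h1) ((few_lin a b r m).1 h2)) θ hθ hθ1

/-- one quadratic polynomial at prime arguments -/
theorem final_quad_prime (a b c : ℤ) (ha : 0 < a)
    (hg : ∀ p : ℕ, p.Prime → ¬ ((p : ℤ) ∣ a ∧ (p : ℤ) ∣ b ∧ (p : ℤ) ∣ c))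
    (hD : ¬ IsSquare (b ^ 2 - 4 * a * c))
    (hadm : ∀ p : ℕ, p.Prime → ∃ m : ℕ, ¬ p ∣ m ∧ ¬ (p : ℤ) ∣ a * (m : ℤ) ^ 2 + b * m + c)
    (R Al : ℕ → Set ℕ)
    (hR : ∀ r m : ℕ, 2 ≤ r → m ∈ R r → (∀ p : ℕ, p.Prime → p ∣ m → (m : ℝ) ^ (1 / (r : ℝ)) < (p : ℝ)) ∧
      ∀ p : ℕ, p.Prime → (p : ℤ) ∣ a * (m : ℤ) ^ 2 + b * m + c →
      (m : ℝ) ^ (1 / (r : ℝ)) < (p : ℝ))
    (hAl : ∀ r m : ℕ, 2 ≤ r → m.Prime → (∀ p : ℕ, p.Prime → (p : ℤ) ∣ a * (m : ℤ) ^ 2 + b * m + c →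
      (m : ℝ) ^ (1 / (r : ℝ)) < (p : ℝ)) →
      (a * (m : ℤ) ^ 2 + b * m + c).natAbs.primeFactorsList.length ≤ r → m ∈ Al r)
    (θ : ℝ) (hθ : 0 < θ) (hθ1 : θ ≤ 1) :
    ∃ r0 : ℕ, 2 ≤ r0 ∧ ∀ r : ℕ, r0 ≤ r →
    (∃ κ : ℝ, 0 < κ ∧ ∀ᶠ X : ℕ in atTop, κ * X / Real.log X ^ 2 ≤ N (Al r) X (2 * X)) ∧
    ∀ ε : ℝ, 0 < ε → ∃ c : ℝ, 0 < c ∧ ∀ δ : ℝ, 0 < δ → ∃ B : ℕ,
      ∀ᶠ X : ℕ in atTop, ∀ Y : ℕ, (X : ℝ) ^ θ ≤ Y → 2 * Y ≤ X →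
        ∀ A : Set ℕ, A ⊆ R r →
        (N (Irregular A 2 c δ B X Y) X (X + Y) : ℝ) ≤ ε * Y / Real.log X ^ 2 :=
  final_prime (fun _ : Fin 1 => Pool.Agent.TH464.PW.quad a b c)
    (fun _ => Pool.Agent.TH464.PW.quad_irr a b c ha.ne' hg hD)
    (fun _ => by rw [Pool.Agent.TH464.PW.quad_deg a b c ha.ne']; norm_num)
    (fun _ => by rw [Pool.Agent.TH464.PW.quad_lead a b c ha.ne']; exact ha)
    (fun _ _ _ => Subsingleton.elim _ _)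
    (fun _ h => by
      have h1 := Pool.Agent.TH464.PW.quad_deg a b c ha.ne'
      rw [h, natDegree_X] at h1
      omega)
    (fun p hp => by
      obtain ⟨m, h1, h2⟩ := hadm p hp
      refine ⟨m, h1, fun _ => ?_⟩
      rw [Pool.Agent.TH464.PW.quad_eval]
      exact h2) R Al 2 (by rw [Fintype.card_fin])
    (fun r m h2r h => ⟨(hR r m h2r h).1, fun _ p hp hd => (hR r m h2r h).2 p hp (by
      rw [Pool.Agent.TH464.PW.quad_eval] at hd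
      exact hd)⟩)
    (fun r m h2r h0 h1 h2 => hAl r m h2r h0 (fun p hp hd => h1 0 p hp (by
      rw [Pool.Agent.TH464.PW.quad_eval]
      exact hd)) (by
      have := h2 0
      rw [Pool.Agent.TH464.PW.quad_eval] at this
      exact this)) θ hθ hθ1

end Pool.Agent.TH977.PW
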