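import Pool.Agent.TH977.PW.Prog

set_option autoImplicit false

/-!
# Tuples between consecutive powers
-/

namespace Pool.Agent.TH977.PW

open Finset Filter

lemma pow_upper (n m : ℕ) : (n + 1) ^ (m + 1) ≤ n ^ (m + 1) + (m + 1) * (n + 1) ^ m := by
  induction m with
  | zero => simp
  | succ m ih =>
    calc (n + 1) ^ (m + 1 + 1) = n * (n + 1) ^ (m + 1) + (n + 1) ^ (m + 1) := by ring
      _ ≤ n * (n ^ (m + 1) + (m + 1) * (n + 1) ^ m) + (n + 1) ^ (m + 1) := by gcongr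
      _ = n ^ (m + 1 + 1) + (m + 1) * (n * (n + 1) ^ m) + (n + 1) ^ (m + 1) := by ring
      _ ≤ n ^ (m + 1 + 1) + (m + 1) * ((n + 1) * (n + 1) ^ m) + (n + 1) ^ (m + 1) := by
          gcongr
          omega
      _ = _ := by ring

lemma pow_lower (n m : ℕ) : n ^ (m + 1) + (m + 1) * n ^ m ≤ (n + 1) ^ (m + 1) := by
  induction m with
  | zero => simp
  | succ m ih =>
    calc n ^ (m + 1 + 1) + (m + 1 + 1) * n ^ (m + 1)
        ≤ n ^ (m + 1 + 1) + (m + 1 + 1) * n ^ (m + 1) + (m + 1) * n ^ m := Nat.le_add_right _ _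
      _ = (n + 1) * (n ^ (m + 1) + (m + 1) * n ^ m) := by ring
      _ ≤ (n + 1) * (n + 1) ^ (m + 1) := by gcongr
      _ = _ := by ring

lemma pow_two_le (n m : ℕ) (hn : 1 ≤ n) : (n + 1) ^ m ≤ 2 ^ m * n ^ m := by
  rw [← mul_pow]
  exact Nat.pow_le_pow_left (by omega) m

lemma rpow_lem (n m : ℕ) :
    (((n ^ (m + 1) : ℕ) : ℝ)) ^ ((m : ℝ) / ((m + 1 : ℕ) : ℝ)) = (n : ℝ) ^ m := by
  have h : (((m + 1 : ℕ) : ℝ)) ≠ 0 := by positivity
  rw [Nat.cast_pow, ← Real.rpow_natCast, ← Real.rpow_mul (Nat.cast_nonneg n),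
    mul_div_cancel₀ _ h, Real.rpow_natCast]

lemma log_lem (n m : ℕ) : Real.log ((n ^ (m + 1) : ℕ) : ℝ) = ((m + 1 : ℕ) : ℝ) * Real.log n := by
  rw [Nat.cast_pow, Real.log_pow]

/-- **Tuples between consecutive powers.** -/
theorem final_powers (H : Finset ℕ) (hne : H.Nonempty)
    (hadm : ∀ p : ℕ, p.Prime → ∃ m : ℕ, ∀ h ∈ H, ¬ p ∣ m + h)
    (R Al : ℕ → Set ℕ) (k : ℕ) (hk : H.card = k)
    (hR : ∀ r m : ℕ, 2 ≤ r → m ∈ R r → ∀ h ∈ H, ∀ p : ℕ, p.Prime → p ∣ m + h →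
      (m : ℝ) ^ (1 / (r : ℝ)) < (p : ℝ))
    (hAl : ∀ r : ℕ, 2 ≤ r → ∀ m : ℕ, (∀ h ∈ H, ∀ p : ℕ, p.Prime →
      p ∣ m + h → (m : ℝ) ^ (1 / (r : ℝ)) < (p : ℝ)) →
      (∀ h ∈ H, (m + h).primeFactorsList.length ≤ r) → m ∈ Al r)
    (m b : ℕ) (hm : 1 ≤ m) :
    ∃ r0 : ℕ, 2 ≤ r0 ∧ ∀ r : ℕ, r0 ≤ r →
    (∃ κ : ℝ, 0 < κ ∧ ∀ᶠ n : ℕ in atTop,
      κ * n ^ m / Real.log n ^ k ≤ N (Al r) (n ^ (m + 1)) ((n + 1) ^ (m + 1) - 1 - b)) ∧
    ∀ ε : ℝ, 0 < ε → ∃ c : ℝ, 0 < c ∧ ∀ δ : ℝ, 0 < δ → ∃ B : ℕ,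
      ∀ᶠ n : ℕ in atTop, ∀ A : Set ℕ, A ⊆ R r →
        (N (Irregular A k c δ B (n ^ (m + 1)) ((n + 1) ^ (m + 1) - n ^ (m + 1) - 1))
          (n ^ (m + 1)) ((n + 1) ^ (m + 1) - 1) : ℝ) ≤ ε * n ^ m / Real.log n ^ k := by
  have hm0 : (0 : ℝ) < ((m + 1 : ℕ) : ℝ) := by positivity
  obtain ⟨r0, hr0, h⟩ := final_prog H hne 1 0 one_pos (fun h _ => Nat.coprime_one_right _) hadm
    R Al k hk hR (fun r hr => Eventually.of_forall (fun x _ h1 h2 => hAl r hr x h1 h2))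
    ((m : ℝ) / ((m + 1 : ℕ) : ℝ))
    (div_pos (by exact_mod_cast hm) hm0)
    (by rw [div_le_one hm0]; push_cast; linarith)
  have hpow : Tendsto (fun n : ℕ => n ^ (m + 1)) atTop atTop := by
    apply tendsto_atTop_mono (f := fun n : ℕ => n) _ tendsto_id
    intro n
    exact Nat.le_self_pow (by omega) n
  have hup : ∀ n : ℕ, 1 ≤ n → (n + 1) ^ (m + 1) ≤ n ^ (m + 1) + (m + 1) * 2 ^ m * n ^ m := by
    intro n hn
    calc (n + 1) ^ (m + 1) ≤ n ^ (m + 1) + (m + 1) * (n + 1) ^ m := pow_upper n m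
      _ ≤ n ^ (m + 1) + (m + 1) * (2 ^ m * n ^ m) := by
          gcongr
          exact pow_two_le n m hn
      _ = _ := by ring
  refine ⟨r0, hr0, fun r hr => ⟨?_, ?_⟩⟩
  · obtain ⟨κ, hκ, h1⟩ := (h r hr).1
    refine ⟨κ / ((m + 1 : ℕ) : ℝ) ^ k, by positivity, ?_⟩
    filter_upwards [hpow.eventually h1, eventually_ge_atTop (b + 2),
      eventually_ge_atTop ((m + 1) * 2 ^ m)] with n hn hnb hn2
    have hlow := pow_lower n m
    have hu := hup n (by omega)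
    have hnm : b + 2 ≤ n ^ m := le_trans hnb (Nat.le_self_pow (by omega) n)
    have h2n : 2 * n ^ m ≤ (m + 1) * n ^ m := Nat.mul_le_mul_right _ (by omega)
    have e1 : n ^ (m + 1) + ((n + 1) ^ (m + 1) - n ^ (m + 1) - 1 - b) =
        (n + 1) ^ (m + 1) - 1 - b := by omega
    have hY : n ^ m ≤ (n + 1) ^ (m + 1) - n ^ (m + 1) - 1 - b := by omega
    have hYX : (n + 1) ^ (m + 1) - n ^ (m + 1) - 1 - b ≤ n ^ (m + 1) := by
      have h3 : (m + 1) * 2 ^ m * n ^ m ≤ n * n ^ m := Nat.mul_le_mul_right _ hn2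
      have h4 : n * n ^ m = n ^ (m + 1) := by ring
      omega
    have h2 := hn _ (by
      rw [rpow_lem]
      exact_mod_cast hY) hYX
    rw [e1, log_lem] at h2
    refine le_trans ?_ h2
    have hl : 0 < Real.log n := Real.log_pos (by exact_mod_cast (by omega : 1 < n))
    calc κ / ((m + 1 : ℕ) : ℝ) ^ k * n ^ m / Real.log n ^ k
        = κ * ((n ^ m : ℕ) : ℝ) / (((m + 1 : ℕ) : ℝ) * Real.log n) ^ k := by
          rw [mul_pow, Nat.cast_pow]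
          field_simp
      _ ≤ _ := by
          gcongr
  · intro ε hε
    obtain ⟨c, hc, h1⟩ := (h r hr).2 (ε / ((m + 1) * 2 ^ m)) (by positivity)
    refine ⟨c, hc, fun δ hδ => ?_⟩
    obtain ⟨B, h2⟩ := h1 δ hδ
    refine ⟨B, ?_⟩
    filter_upwards [hpow.eventually h2, eventually_ge_atTop 2,
      eventually_ge_atTop (2 * ((m + 1) * 2 ^ m))] with n hn hn2 hn3 A hA
    have hlow := pow_lower n m
    have hu := hup n (by omega)
    have hnm : 2 ≤ n ^ m := le_trans hn2 (Nat.le_self_pow (by omega) n)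
    have h2n : 2 * n ^ m ≤ (m + 1) * n ^ m := Nat.mul_le_mul_right _ (by omega)
    have e1 : n ^ (m + 1) + ((n + 1) ^ (m + 1) - n ^ (m + 1) - 1) = (n + 1) ^ (m + 1) - 1 := by
      omega
    have hY : n ^ m ≤ (n + 1) ^ (m + 1) - n ^ (m + 1) - 1 := by omega
    have hYu : (n + 1) ^ (m + 1) - n ^ (m + 1) - 1 ≤ (m + 1) * 2 ^ m * n ^ m := by omega
    have hYX : 2 * ((n + 1) ^ (m + 1) - n ^ (m + 1) - 1) ≤ n ^ (m + 1) := by
      have h3 : 2 * ((m + 1) * 2 ^ m) * n ^ m ≤ n * n ^ m := Nat.mul_le_mul_right _ hn3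
      have h4 : n * n ^ m = n ^ (m + 1) := by ring
      have h5 : 2 * ((m + 1) * 2 ^ m) * n ^ m = 2 * ((m + 1) * 2 ^ m * n ^ m) := by ring
      omega
    have h3 := hn _ (by
      rw [rpow_lem]
      exact_mod_cast hY) hYX A hA
    rw [e1, log_lem] at h3
    refine h3.trans ?_
    have hl : 0 < Real.log n := Real.log_pos (by exact_mod_cast (by omega : 1 < n))
    have hYr : ((((n + 1) ^ (m + 1) - n ^ (m + 1) - 1 : ℕ)) : ℝ) ≤ (m + 1) * 2 ^ m * n ^ m := by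
      exact_mod_cast hYu
    calc ε / ((m + 1) * 2 ^ m) * ((((n + 1) ^ (m + 1) - n ^ (m + 1) - 1 : ℕ)) : ℝ) /
          (((m + 1 : ℕ) : ℝ) * Real.log n) ^ k
        ≤ ε / ((m + 1) * 2 ^ m) * ((m + 1) * 2 ^ m * n ^ m) / Real.log n ^ k := by
          gcongr
          have : (1 : ℝ) ≤ ((m + 1 : ℕ) : ℝ) := by exact_mod_cast (by omega : 1 ≤ m + 1)
          nlinarith
      _ = ε * n ^ m / Real.log n ^ k := by
          field_simp

end Pool.Agent.TH977.PW
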