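import Pool.Agent.TH977.PW.Hered
import Pool.Agent.W182.PW.Main

set_option autoImplicit false

/-!
# Prime arguments with rough values
-/

namespace Pool.Agent.TH977.PW

open Polynomial Finset Filter
open Pool.Agent.W123.RP Pool.Agent.H373R2.T7 Pool.Agent.W123.RU Pool.Agent.W123.RU.Poly
open Pool.Agent.W182.PW

lemma sys_ext {ι : Type} [Fintype ι] (f : ι → ℤ[X])
    (hirr : ∀ i, Irreducible (f i)) (hdeg : ∀ i, 0 < (f i).natDegree)
    (hlead : ∀ i, 0 < (f i).leadingCoeff) (hinj : Function.Injective f) (hX : ∀ i, f i ≠ X)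
    (hadm : ∀ p : ℕ, p.Prime → ∃ m : ℕ, ¬ p ∣ m ∧ ∀ i, ¬ (p : ℤ) ∣ (f i).eval (m : ℤ)) :
    Sys (ext f) := by
  refine ⟨?_, ?_, ?_, ?_, ?_⟩
  · rintro (_ | i)
    · exact irreducible_X
    · exact hirr i
  · rintro (_ | i)
    · change 0 < (X : ℤ[X]).natDegree
      rw [natDegree_X]; norm_num
    · exact hdeg i
  · rintro (_ | i)
    · change 0 < (X : ℤ[X]).leadingCoeff
      rw [leadingCoeff_X]; norm_num
    · exact hlead i
  · rintro (_ | i) (_ | j) h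
    · rfl
    · exact absurd h.symm (hX j)
    · exact absurd h (hX i)
    · exact congrArg some (hinj h)
  · intro p hp
    obtain ⟨m, hm1, hm2⟩ := hadm p hp
    refine ⟨m, ?_⟩
    rintro (_ | i)
    · change ¬ (p : ℤ) ∣ (X : ℤ[X]).eval (m : ℤ)
      rw [eval_X, Int.natCast_dvd_natCast]
      exact hm1
    · exact hm2 i

open Classical in
theorem prime_input {ι : Type} [Fintype ι] (f : ι → ℤ[X]) (hg : Sys (ext f)) :
    ∃ r1 : ℕ, 2 ≤ r1 ∧ ∀ r : ℕ, r1 ≤ r → ∃ κ : ℝ, 0 < κ ∧ ∀ᶠ X : ℕ in atTop,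
      κ * X / Real.log X ^ (Fintype.card ι + 1) ≤
        (((Finset.Ioc X (2 * X)).filter (fun m => m.Prime ∧ Rough f r m ∧ Few f r m)).card : ℝ) := by
  obtain ⟨k0, hk0⟩ : ∃ k0, k0 = Fintype.card ι := ⟨_, rfl⟩
  obtain ⟨k, hk⟩ : ∃ k, k = k0 + 1 := ⟨_, rfl⟩
  have hk1 : 1 ≤ k := by omega
  rw [← hk0, ← hk]
  obtain ⟨c, hc, hQ⟩ := exists_c (ext f) hg
  have hQA : PerA (Q f) c := by
    refine ⟨fun p n => Poly.per f p n, fun p hp => ?_⟩
    have h1 := hQ.few p hp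
    rw [nuB_ext f p hp] at h1
    omega
  obtain ⟨w, hw, hW⟩ := prod_low f hg
  rw [← hk0] at hW
  obtain ⟨K2, hK2, hlow⟩ := prime_lower c hc
  choose Ki Di hKD using fun i => eval_bound (f i)
  obtain ⟨A, hA⟩ : ∃ A : ℕ, A = 1 + ∑ i, Ki i := ⟨_, rfl⟩
  obtain ⟨d, hd⟩ : ∃ d : ℕ, d = ∑ i, Di i := ⟨_, rfl⟩
  have hKr : (2 : ℝ) ≤ K2 := by exact_mod_cast hK2
  have hKpos : (0 : ℝ) < K2 := by linarith
  refine ⟨(d + 2) * K2, by nlinarith, ?_⟩
  intro r hr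
  have hr2 : 2 ≤ r := by nlinarith
  have hrr : (2 : ℝ) ≤ r := by exact_mod_cast hr2
  have hrpos : (0 : ℝ) < r := by linarith
  have hd0 : (0 : ℝ) ≤ d := Nat.cast_nonneg d
  have hrd : ((d : ℝ) + 2) * K2 ≤ r := by exact_mod_cast hr
  have hr2K : 2 * (K2 : ℝ) ≤ r := by nlinarith
  refine ⟨w / 8, by positivity, ?_⟩
  have hXr : Tendsto (fun X : ℕ => (X : ℝ)) atTop atTop := tendsto_natCast_atTop_atTop
  have hpow : Tendsto (fun X : ℕ => (X : ℝ) ^ (1 / (2 * K2 : ℝ))) atTop atTop :=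
    (tendsto_rpow_atTop (by positivity)).comp hXr
  have hlogX : Tendsto (fun X : ℕ => Real.log (X : ℝ)) atTop atTop :=
    Real.tendsto_log_atTop.comp hXr
  filter_upwards [hlow K2 le_rfl (k0 + 1), eventually_ge_atTop (max 16 (A * 5 ^ d)),
      hpow.eventually_ge_atTop 3, hlogX.eventually_ge_atTop (2 + 1 / w)] with X hlow hX16' hX2 hXlog
  have hX16 : 16 ≤ X := (le_max_left _ _).trans hX16'
  have hXA : A * 5 ^ d ≤ X := (le_max_right _ _).trans hX16'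
  have hX16r : (16 : ℝ) ≤ X := by exact_mod_cast hX16
  have hXpos : (0 : ℝ) < X := by linarith
  have hX1 : (1 : ℝ) ≤ X := by linarith
  have hv1 : 0 < 1 / w := by positivity
  have hlX : 0 < Real.log X := by linarith
  set L : ℝ := Real.log X ^ k with hL
  have hLpos : 0 < L := by positivity
  obtain ⟨hz1, hz2, hz3, hz4⟩ := level_low K2 hK2 X (by omega) (by linarith)
  have hz5 : 3 ≤ ⌊(X : ℝ) ^ (1 / (K2 : ℝ))⌋₊ := by
    have : (3 : ℝ) ≤ ⌊(X : ℝ) ^ (1 / (K2 : ℝ))⌋₊ := hX2.trans hz1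
    exact_mod_cast this
  have hzlog : 0 < Real.log ⌊(X : ℝ) ^ (1 / (K2 : ℝ))⌋₊ := lt_of_lt_of_le (by positivity) hz2
  have hWz : w / Real.log X ^ k0 ≤
      ∏ p ∈ pz ⌊(X : ℝ) ^ (1 / (K2 : ℝ))⌋₊, (1 - (rhoA (Q f) p : ℝ) / (p - 1 : ℝ)) := by
    refine le_trans ?_ (hW _ hz5)
    gcongr
  have h1 := hlow (Q f) hQA (by
    refine le_trans ?_ hWz
    rw [div_le_div_iff₀ (by positivity) (by positivity), one_mul, pow_succ]
    have h2 : 1 ≤ w * Real.log X := by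
      have : 1 / w ≤ Real.log X := by linarith
      rw [div_le_iff₀ hw] at this
      linarith
    calc Real.log X ^ k0 = Real.log X ^ k0 * 1 := (mul_one _).symm
      _ ≤ Real.log X ^ k0 * (w * Real.log X) := by gcongr
      _ = _ := by ring)
  have h3 : w / 8 * X / L ≤ (∏ p ∈ pz ⌊(X : ℝ) ^ (1 / (K2 : ℝ))⌋₊,
      (1 - (rhoA (Q f) p : ℝ) / (p - 1 : ℝ))) * X / (8 * Real.log X) := by
    calc w / 8 * X / L = w / Real.log X ^ k0 * X / (8 * Real.log X) := by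
          rw [hL, hk, pow_succ]
          field_simp
      _ ≤ _ := by gcongr
  refine h3.trans (h1.trans ?_)
  have hz0 : 2 ≤ (X : ℝ) ^ (1 / (K2 : ℝ)) := by
    have h6 : ((⌊(X : ℝ) ^ (1 / (K2 : ℝ))⌋₊ : ℕ) : ℝ) ≤ (X : ℝ) ^ (1 / (K2 : ℝ)) :=
      Nat.floor_le (by positivity)
    have h7 : (2 : ℝ) ≤ ((⌊(X : ℝ) ^ (1 / (K2 : ℝ))⌋₊ : ℕ) : ℝ) := by exact_mod_cast hz4
    linarith
  have hXz2 : ((X : ℝ) ^ (2 : ℝ)) ^ (1 / (r : ℝ)) ≤ (X : ℝ) ^ (1 / (K2 : ℝ)) := by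
    rw [← Real.rpow_mul hXpos.le]
    apply Real.rpow_le_rpow_of_exponent_le hX1
    rw [mul_one_div, div_le_div_iff₀ hrpos hKpos]
    linarith
  have hbig : (X : ℝ) ^ (d + 2) ≤ ((X : ℝ) ^ (1 / (K2 : ℝ))) ^ (r + 1) := by
    calc (X : ℝ) ^ (d + 2) = (X : ℝ) ^ ((d : ℝ) + 2) := by
          rw [← Real.rpow_natCast]
          push_cast
          rfl
      _ ≤ (X : ℝ) ^ (1 / (K2 : ℝ) * r) := by
          apply Real.rpow_le_rpow_of_exponent_le hX1
          rw [div_mul_eq_mul_div, le_div_iff₀ hKpos]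
          linarith
      _ = ((X : ℝ) ^ (1 / (K2 : ℝ))) ^ r := by
          rw [Real.rpow_mul hXpos.le, Real.rpow_natCast]
      _ ≤ ((X : ℝ) ^ (1 / (K2 : ℝ))) ^ (r + 1) := pow_le_pow_right₀ (by linarith) (by omega)
  have hsub : (Finset.Ioc X (2 * X)).filter (fun n => n.Prime ∧
        ∀ p ∈ pz ⌊(X : ℝ) ^ (1 / (K2 : ℝ))⌋₊, ¬ Q f p n) ⊆
      (Finset.Ioc X (2 * X)).filter (fun m => m.Prime ∧ Rough f r m ∧ Few f r m) := by
    intro m hm
    rw [mem_filter, mem_Ioc] at hm ⊢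
    obtain ⟨⟨hm1, hm2⟩, hmp, hm3⟩ := hm
    have hrough : ∀ i, ∀ p : ℕ, p.Prime → (p : ℤ) ∣ (f i).eval (m : ℤ) →
        (X : ℝ) ^ (1 / (K2 : ℝ)) < p := by
      intro i p hp hd
      exact not_mem_pz hp (fun h => hm3 p h ⟨i, hd⟩)
    refine ⟨⟨hm1, hm2⟩, hmp, ?_, ?_⟩
    · intro i p hp hdv
      refine lt_of_le_of_lt ?_ (hrough i p hp hdv)
      refine le_trans ?_ hXz2
      apply Real.rpow_le_rpow (by positivity) _ (by positivity)
      have h10 : (m : ℝ) ≤ 2 * X := by exact_mod_cast hm2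
      rw [Real.rpow_two]
      nlinarith
    · intro i
      have hne : (f i).eval (m : ℤ) ≠ 0 := by
        intro h0
        have := hrough i 2 Nat.prime_two (by rw [h0]; exact dvd_zero _)
        push_cast at this
        linarith
      apply length_le _ r (Int.natAbs_ne_zero.2 hne) ((X : ℝ) ^ (1 / (K2 : ℝ)))
      · intro p hp hdv
        exact hrough i p hp (Int.natCast_dvd.2 hdv)
      · have h8 := hKD i (m : ℤ)
        have e1 : ((((f i).eval (m : ℤ)).natAbs : ℕ) : ℝ) =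
            |(((f i).eval (m : ℤ) : ℤ) : ℝ)| := by
          rw [Nat.cast_natAbs, Int.cast_abs]
        have e2 : |((m : ℤ) : ℝ)| = (m : ℝ) := by
          rw [Int.cast_natCast, abs_of_nonneg (Nat.cast_nonneg m)]
        rw [e1]
        rw [e2] at h8
        have hm5 : (1 : ℝ) + m ≤ 5 * X := by
          have h9 : m ≤ 4 * X := by omega
          have h10 : (m : ℝ) ≤ 4 * X := by exact_mod_cast h9
          linarith
        have hm6 : (1 : ℝ) ≤ 1 + m := by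
          have : (0 : ℝ) ≤ m := Nat.cast_nonneg m
          linarith
        have hKA : (Ki i : ℝ) ≤ A := by
          have h9 : Ki i ≤ ∑ i, Ki i :=
            Finset.single_le_sum (f := Ki) (fun _ _ => Nat.zero_le _) (mem_univ i)
          have h10 : Ki i ≤ A := by omega
          exact_mod_cast h10
        have hDd : Di i ≤ d := by
          rw [hd]
          exact Finset.single_le_sum (f := Di) (fun _ _ => Nat.zero_le _) (mem_univ i)
        have hXA' : (A : ℝ) * 5 ^ d ≤ X := by exact_mod_cast hXA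
        calc |(((f i).eval (m : ℤ) : ℤ) : ℝ)| ≤ Ki i * (1 + m) ^ Di i := h8
          _ ≤ A * (1 + m) ^ d := by
            apply mul_le_mul hKA (pow_le_pow_right₀ hm6 hDd) (by positivity) (by positivity)
          _ ≤ A * (5 * X) ^ d := by gcongr
          _ = A * 5 ^ d * (X : ℝ) ^ d := by rw [mul_pow]; ring
          _ ≤ X * (X : ℝ) ^ d := by gcongr
          _ = (X : ℝ) ^ (d + 1) := by rw [pow_succ]; ring
          _ ≤ (X : ℝ) ^ (d + 2) := pow_le_pow_right₀ hX1 (by omega)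
          _ ≤ _ := hbig
      · linarith
  exact_mod_cast card_le_card hsub

/-- every prime factor of `m` and of every value `f i (m)` is larger than `m ^ (1 / r)` -/
def RoughX {ι : Type} (f : ι → ℤ[X]) (r m : ℕ) : Prop :=
  (∀ p : ℕ, p.Prime → p ∣ m → (m : ℝ) ^ (1 / (r : ℝ)) < (p : ℝ)) ∧ Rough f r m

lemma roughX_iff {ι : Type} (f : ι → ℤ[X]) (r m : ℕ) : RoughX f r m ↔ Rough (ext f) r m := by
  unfold RoughX Rough Pool.Agent.W182.PW.ext
  constructor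
  · rintro ⟨h1, h2⟩
    rintro (_ | i) p hp hd
    · apply h1 p hp
      have : (p : ℤ) ∣ (X : ℤ[X]).eval (m : ℤ) := hd
      rw [eval_X, Int.natCast_dvd_natCast] at this
      exact this
    · exact h2 i p hp hd
  · intro h
    refine ⟨fun p hp hd => h none p hp ?_, fun i => h (some i)⟩
    change (p : ℤ) ∣ (X : ℤ[X]).eval (m : ℤ)
    rw [eval_X, Int.natCast_dvd_natCast]
    exact hd

open Classical in
/-- **Regular neighbourhoods, prime arguments.** -/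
theorem prime_neighbours {ι : Type} [Fintype ι] (f : ι → ℤ[X])
    (hirr : ∀ i, Irreducible (f i)) (hdeg : ∀ i, 0 < (f i).natDegree)
    (hlead : ∀ i, 0 < (f i).leadingCoeff) (hinj : Function.Injective f) (hX : ∀ i, f i ≠ X)
    (hadm : ∀ p : ℕ, p.Prime → ∃ m : ℕ, ¬ p ∣ m ∧ ∀ i, ¬ (p : ℤ) ∣ (f i).eval (m : ℤ))
    (θ : ℝ) (hθ : 0 < θ) (hθ1 : θ ≤ 1) :
    ∃ r0 : ℕ, 2 ≤ r0 ∧ ∀ r : ℕ, r0 ≤ r →
    (∃ κ : ℝ, 0 < κ ∧ ∀ᶠ X : ℕ in atTop,
      κ * X / Real.log X ^ (Fintype.card ι + 1) ≤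
        N {m | m.Prime ∧ Rough f r m ∧ Few f r m} X (2 * X)) ∧
    ∀ ε : ℝ, 0 < ε → ∃ c : ℝ, 0 < c ∧ ∀ δ : ℝ, 0 < δ → ∃ B : ℕ,
      ∀ᶠ X : ℕ in atTop, ∀ Y : ℕ, (X : ℝ) ^ θ ≤ Y → 2 * Y ≤ X →
        ∀ A : Set ℕ, (∀ m ∈ A, RoughX f r m) →
        (N (Irregular A (Fintype.card ι + 1) c δ B X Y) X (X + Y) : ℝ) ≤
            ε * Y / Real.log X ^ (Fintype.card ι + 1) := by
  have hg := sys_ext f hirr hdeg hlead hinj hX hadm
  obtain ⟨r0, hr0, h0⟩ := hereditary (ext f) hg θ hθ hθ1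
  obtain ⟨r1, hr1, h1⟩ := prime_input f hg
  refine ⟨max r0 r1, hr0.trans (le_max_left _ _), ?_⟩
  intro r hr
  have hcard : Fintype.card (Option ι) = Fintype.card ι + 1 := Fintype.card_option
  constructor
  · obtain ⟨κ, hκ, h⟩ := h1 r ((le_max_right _ _).trans hr)
    refine ⟨κ, hκ, ?_⟩
    filter_upwards [h] with X hX
    refine hX.trans ?_
    have h3 : ((Finset.Ioc X (2 * X)).filter
        (fun m => m.Prime ∧ Rough f r m ∧ Few f r m)).card ≤
        N {m | m.Prime ∧ Rough f r m ∧ Few f r m} X (2 * X) := by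
      apply card_le_N _ _ _ _ id (Function.injective_id.injOn)
      intro m hm
      rw [mem_filter, mem_Ioc] at hm
      exact ⟨hm.1.1, hm.1.2, hm.2⟩
    exact_mod_cast h3
  · intro ε hε
    obtain ⟨c, hc, h⟩ := h0 r ((le_max_left _ _).trans hr) ε hε
    refine ⟨c, hc, fun δ hδ => ?_⟩
    obtain ⟨B, h⟩ := h δ hδ
    refine ⟨B, ?_⟩
    filter_upwards [h] with X hX Y hXY hYX A hA
    rw [← hcard]
    exact hX Y hXY hYX A (fun m hm => (roughX_iff f r m).1 (hA m hm))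

end Pool.Agent.TH977.PW
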