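import Pool.Agent.TH977.PW.Inst

set_option autoImplicit false

/-!
# Tuples of rough numbers in an arithmetic progression, short intervals
-/

namespace Pool.Agent.TH977.PW

open Polynomial Finset Filter
open Pool.Agent.W123.RP Pool.Agent.H373R2.T7 Pool.Agent.W123.RU Pool.Agent.W123.RU.Poly
open Pool.Agent.W182.PW

/-- no local obstruction in the progression -/
lemma prog_adm (H : Finset ℕ) (M n0 : ℕ) (hcop : ∀ h ∈ H, Nat.Coprime (n0 + h) M)
    (hadm : ∀ p : ℕ, p.Prime → ∃ m : ℕ, ∀ h ∈ H, ¬ p ∣ m + h) (p : ℕ) (hp : p.Prime) :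
    ∃ t : ℕ, ∀ h ∈ H, ¬ p ∣ M * t + n0 + h := by
  by_cases hpM : p ∣ M
  · refine ⟨0, fun h hh hd => ?_⟩
    rw [Nat.mul_zero, Nat.zero_add] at hd
    have h1 : p ∣ 1 := by
      have := Nat.dvd_gcd hd hpM
      rwa [hcop h hh] at this
    exact hp.one_lt.ne' (Nat.dvd_one.1 h1)
  · obtain ⟨m, hm⟩ := hadm p hp
    have : Fact p.Prime := ⟨hp⟩
    have hM0 : (M : ZMod p) ≠ 0 := by
      rw [Ne, ZMod.natCast_eq_zero_iff]
      exact hpM
    refine ⟨(((m : ZMod p) - n0) * (M : ZMod p)⁻¹).val, fun h hh hd => hm h hh ?_⟩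
    rw [← ZMod.natCast_eq_zero_iff] at hd ⊢
    push_cast at hd ⊢
    rw [ZMod.natCast_val, ZMod.cast_id] at hd
    rw [← hd]
    field_simp
    ring

open Classical in
theorem lower_prog (H : Finset ℕ) (hne : H.Nonempty) (M n0 : ℕ) (hM : 0 < M)
    (hcop : ∀ h ∈ H, Nat.Coprime (n0 + h) M)
    (hadm : ∀ p : ℕ, p.Prime → ∃ m : ℕ, ∀ h ∈ H, ¬ p ∣ m + h)
    (θ : ℝ) (hθ : 0 < θ) (hθ1 : θ ≤ 1) :
    ∃ r1 : ℕ, 2 ≤ r1 ∧ ∀ r : ℕ, r1 ≤ r → ∃ κ : ℝ, 0 < κ ∧ ∀ᶠ X : ℕ in atTop, ∀ Y : ℕ,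
      (X : ℝ) ^ θ ≤ Y → Y ≤ X → κ * Y / Real.log X ^ H.card ≤
        N {n | n % M = n0 % M ∧ ∀ h ∈ H,
          (∀ p : ℕ, p.Prime → p ∣ n + h → (n : ℝ) ^ (1 / (r : ℝ)) < (p : ℝ)) ∧
          (n + h).primeFactorsList.length ≤ r} X (X + Y) := by
  have : Nonempty {x // x ∈ H} := ⟨⟨hne.choose, hne.choose_spec⟩⟩
  have hcast : ∀ (t h : ℕ), ((M : ℕ) : ℤ) * (t : ℤ) + ((n0 + h : ℕ) : ℤ) =
      ((M * t + n0 + h : ℕ) : ℤ) := by
    intro t h
    push_cast
    ring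
  have hsys : Sys (fun i : {x // x ∈ H} => lin M ((n0 + i.1 : ℕ) : ℤ)) := by
    apply sys_lin (fun _ : {x // x ∈ H} => M) (fun i : {x // x ∈ H} => ((n0 + i.1 : ℕ) : ℤ))
      (fun _ => hM)
    · intro i
      exact (Nat.isCoprime_iff_coprime.2 (hcop i.1 i.2)).symm
    · intro i j _ h
      apply Subtype.ext
      have : n0 + i.1 = n0 + j.1 := by exact_mod_cast h
      omega
    · intro p hp
      obtain ⟨t, ht⟩ := prog_adm H M n0 hcop hadm p hp
      refine ⟨t, fun i hi => ht i.1 i.2 ?_⟩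
      rw [hcast, Int.natCast_dvd_natCast] at hi
      exact hi
  obtain ⟨r0, hr0, hlow⟩ := lower_input _ hsys (θ / 2) (by linarith) (by linarith)
  refine ⟨2 * r0, by omega, ?_⟩
  intro r hr
  obtain ⟨κ, hκ, hev⟩ := hlow (r / 2) (by omega)
  rw [Fintype.card_coe] at hev
  obtain ⟨k, hk⟩ : ∃ k, k = H.card := ⟨_, rfl⟩
  rw [← hk] at hev ⊢
  have hMr : (1 : ℝ) ≤ M := by exact_mod_cast hM
  have hM0 : (0 : ℝ) < M := by linarith
  refine ⟨κ / (4 * M * 2 ^ k), by positivity, ?_⟩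
  have hT : Tendsto (fun X : ℕ => X / M + 1) atTop atTop :=
    (tendsto_add_atTop_nat 1).comp (Nat.tendsto_div_const_atTop hM.ne')
  have hXr : Tendsto (fun X : ℕ => (X : ℝ)) atTop atTop := tendsto_natCast_atTop_atTop
  have hpow : Tendsto (fun X : ℕ => (X : ℝ) ^ (θ / 2)) atTop atTop :=
    (tendsto_rpow_atTop (by positivity)).comp hXr
  filter_upwards [hT.eventually hev, hT.eventually_ge_atTop (M + n0 + 1),
    hpow.eventually_ge_atTop (8 * M + 2 * n0 + 8), eventually_ge_atTop 3] with X hX hTM hXp hX3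
  intro Y hXY hYX
  obtain ⟨T, hTd⟩ : ∃ T, T = X / M + 1 := ⟨_, rfl⟩
  obtain ⟨U, hUd⟩ : ∃ U, U = Y / (2 * M) := ⟨_, rfl⟩
  rw [← hTd] at hX hTM
  have hXone : (3 : ℝ) ≤ X := by exact_mod_cast hX3
  have hXpos : (0 : ℝ) < X := by linarith
  have hn0 : (0 : ℝ) ≤ n0 := Nat.cast_nonneg _
  obtain ⟨z, hz⟩ : ∃ z : ℝ, z = (X : ℝ) ^ (θ / 2) := ⟨_, rfl⟩
  rw [← hz] at hXp
  have hzz : (X : ℝ) ^ θ = z * z := by
    rw [hz, ← Real.rpow_add hXpos]
    congr 1
    ring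
  have hYz : z * z ≤ Y := by rw [← hzz]; exact hXY
  have hz0 : 0 < z := by linarith
  have hUr : (Y : ℝ) / (2 * M) - 1 ≤ U := by
    have h1 := Nat.lt_floor_add_one ((Y : ℝ) / ((2 * M : ℕ) : ℝ))
    rw [Nat.floor_div_natCast, Nat.floor_natCast, ← hUd] at h1
    push_cast at h1
    linarith
  have hY4 : (Y : ℝ) / (4 * M) ≤ U := by
    refine le_trans ?_ hUr
    have h1 : (1 : ℝ) ≤ Y / (4 * M) := by
      rw [le_div_iff₀ (by positivity)]
      nlinarith
    have h2 : (Y : ℝ) / (2 * M) = Y / (4 * M) + Y / (4 * M) := by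
      field_simp
      ring
    linarith
  have hTle : T ≤ 2 * X := by
    have := Nat.div_le_self X M
    omega
  have hTr : (T : ℝ) ≤ 2 * X := by exact_mod_cast hTle
  have hT1 : 1 ≤ T := by omega
  have hTr1 : (1 : ℝ) ≤ T := by exact_mod_cast hT1
  have hcond : (T : ℝ) ^ (θ / 2) ≤ U := by
    have h1 : (T : ℝ) ^ (θ / 2) ≤ 2 * z := by
      calc (T : ℝ) ^ (θ / 2) ≤ (2 * X : ℝ) ^ (θ / 2) :=
            Real.rpow_le_rpow (by linarith) hTr (by positivity)
        _ = 2 ^ (θ / 2) * z := by rw [Real.mul_rpow (by norm_num) hXpos.le, hz]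
        _ ≤ 2 ^ (1 : ℝ) * z := by
            apply mul_le_mul_of_nonneg_right _ hz0.le
            apply Real.rpow_le_rpow_of_exponent_le (by norm_num)
            linarith
        _ = 2 * z := by rw [Real.rpow_one]
    refine h1.trans (le_trans ?_ hY4)
    rw [le_div_iff₀ (by positivity)]
    nlinarith
  have hUT : U ≤ T := by
    have h1 : Y / (2 * M) ≤ X / (2 * M) := Nat.div_le_div_right hYX
    have h2 : X / (2 * M) ≤ X / M := Nat.div_le_div_left (by omega) hM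
    omega
  have hmain := hX U hcond hUT
  have hlogX : 0 < Real.log X := Real.log_pos (by linarith)
  have hlogT : Real.log T ≤ 2 * Real.log X := by
    calc Real.log T ≤ Real.log ((X : ℝ) ^ 2) := Real.log_le_log (by linarith) (by nlinarith)
      _ = 2 * Real.log X := by rw [Real.log_pow]; norm_num
  have hT2 : 2 ≤ T := by omega
  have hlogT0 : 0 < Real.log T := Real.log_pos (by exact_mod_cast hT2)
  have hfirst : κ / (4 * M * 2 ^ k) * Y / Real.log X ^ k ≤ κ * U / Real.log T ^ k := by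
    have h1 : Real.log T ^ k ≤ 2 ^ k * Real.log X ^ k := by
      rw [← mul_pow]
      exact pow_le_pow_left₀ hlogT0.le hlogT k
    calc κ / (4 * M * 2 ^ k) * Y / Real.log X ^ k
        = κ * (Y / (4 * M)) / (2 ^ k * Real.log X ^ k) := by field_simp
      _ ≤ κ * U / (2 ^ k * Real.log X ^ k) := by gcongr
      _ ≤ κ * U / Real.log T ^ k := by gcongr
  refine hfirst.trans (hmain.trans ?_)
  have hinj : ((Finset.Ioc T (T + U)).filter (fun m =>
      Rough (fun i : {x // x ∈ H} => lin M ((n0 + i.1 : ℕ) : ℤ)) (r / 2) m ∧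
      Few (fun i : {x // x ∈ H} => lin M ((n0 + i.1 : ℕ) : ℤ)) (r / 2) m)).card ≤
      N {n | n % M = n0 % M ∧ ∀ h ∈ H,
          (∀ p : ℕ, p.Prime → p ∣ n + h → (n : ℝ) ^ (1 / (r : ℝ)) < (p : ℝ)) ∧
          (n + h).primeFactorsList.length ≤ r} X (X + Y) := by
    apply card_le_N _ _ _ _ (fun t => M * t + n0)
    · intro a _ b _ hab
      simp only at hab
      have : M * a = M * b := by omega
      exact Nat.eq_of_mul_eq_mul_left hM this
    · intro t ht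
      rw [mem_filter, mem_Ioc] at ht
      obtain ⟨⟨ht1, ht2⟩, ht3, ht4⟩ := ht
      beta_reduce
      have hdm := Nat.div_add_mod X M
      have hml := Nat.mod_lt X hM
      have hdm2 := Nat.div_mul_le_self Y (2 * M)
      rw [← hUd] at hdm2
      have hA : X < M * t + n0 := by
        have h1 : M * (X / M + 1) ≤ M * t := Nat.mul_le_mul_left M (by omega)
        have h2 : M * (X / M + 1) = M * (X / M) + M := by ring
        omega
      have hYbig : 2 * (M + n0) ≤ Y := by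
        have : (2 * (M + n0) : ℝ) ≤ Y := by nlinarith
        exact_mod_cast this
      have hB : M * t + n0 ≤ X + Y := by
        have h1 : M * t ≤ M * (T + U) := Nat.mul_le_mul_left M ht2
        have h2 : M * (T + U) = M * (X / M) + M + M * U := by rw [hTd]; ring
        have h3 : U * (2 * M) = 2 * (M * U) := by ring
        omega
      refine ⟨hA, hB, ?_, ?_⟩
      · exact Nat.mul_add_mod _ _ _
      · intro h hh
        have hr2 : (1 : ℝ) ≤ ((r / 2 : ℕ) : ℝ) := by exact_mod_cast (by omega : 1 ≤ r / 2)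
        have hrr : (0 : ℝ) < (r : ℝ) := by exact_mod_cast (by omega : 0 < r)
        constructor
        · intro p hp hd
          refine lt_of_le_of_lt ?_ (ht3 ⟨h, hh⟩ p hp (by
            rw [lin_eval, hcast, Int.natCast_dvd_natCast]
            exact hd))
          have htM : M + n0 + 1 ≤ t := by omega
          have hsq : M * t + n0 ≤ t * t := by nlinarith
          have hsqr : ((M * t + n0 : ℕ) : ℝ) ≤ (t : ℝ) ^ (2 : ℝ) := by
            rw [Real.rpow_two]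
            have : ((M * t + n0 : ℕ) : ℝ) ≤ ((t * t : ℕ) : ℝ) := by exact_mod_cast hsq
            push_cast at this ⊢
            nlinarith
          have ht0 : (1 : ℝ) ≤ t := by exact_mod_cast (by omega : 1 ≤ t)
          calc ((M * t + n0 : ℕ) : ℝ) ^ (1 / (r : ℝ)) ≤ ((t : ℝ) ^ (2 : ℝ)) ^ (1 / (r : ℝ)) :=
                Real.rpow_le_rpow (by positivity) hsqr (by positivity)
            _ = (t : ℝ) ^ (2 * (1 / (r : ℝ))) := by rw [← Real.rpow_mul (by linarith)]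
            _ ≤ (t : ℝ) ^ (1 / ((r / 2 : ℕ) : ℝ)) := by
                apply Real.rpow_le_rpow_of_exponent_le ht0
                rw [mul_one_div, div_le_div_iff₀ hrr (by linarith)]
                have : 2 * (r / 2) ≤ r := Nat.mul_div_le r 2
                have : ((2 * (r / 2) : ℕ) : ℝ) ≤ r := by exact_mod_cast this
                push_cast at this
                linarith
        · have := ht4 ⟨h, hh⟩
          rw [lin_eval, hcast, Int.natAbs_natCast] at this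
          exact this.trans (Nat.div_le_self r 2)
  exact_mod_cast hinj

open Classical in
/-- **Tuples.** Hereditary statement for the tuple `H`, lower bound in a progression. -/
theorem final_prog (H : Finset ℕ) (hne : H.Nonempty) (M n0 : ℕ) (hM : 0 < M)
    (hcop : ∀ h ∈ H, Nat.Coprime (n0 + h) M)
    (hadm : ∀ p : ℕ, p.Prime → ∃ m : ℕ, ∀ h ∈ H, ¬ p ∣ m + h)
    (R Al : ℕ → Set ℕ) (k : ℕ) (hk : H.card = k)
    (hR : ∀ r m : ℕ, 2 ≤ r → m ∈ R r → ∀ h ∈ H, ∀ p : ℕ, p.Prime → p ∣ m + h →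
      (m : ℝ) ^ (1 / (r : ℝ)) < (p : ℝ))
    (hAl : ∀ r : ℕ, 2 ≤ r → ∀ᶠ m : ℕ in atTop, m % M = n0 % M → (∀ h ∈ H, ∀ p : ℕ, p.Prime →
      p ∣ m + h → (m : ℝ) ^ (1 / (r : ℝ)) < (p : ℝ)) →
      (∀ h ∈ H, (m + h).primeFactorsList.length ≤ r) → m ∈ Al r)
    (θ : ℝ) (hθ : 0 < θ) (hθ1 : θ ≤ 1) :
    ∃ r0 : ℕ, 2 ≤ r0 ∧ ∀ r : ℕ, r0 ≤ r →
    (∃ κ : ℝ, 0 < κ ∧ ∀ᶠ X : ℕ in atTop, ∀ Y : ℕ, (X : ℝ) ^ θ ≤ Y → Y ≤ X →
      κ * Y / Real.log X ^ k ≤ N (Al r) X (X + Y)) ∧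
    ∀ ε : ℝ, 0 < ε → ∃ c : ℝ, 0 < c ∧ ∀ δ : ℝ, 0 < δ → ∃ B : ℕ,
      ∀ᶠ X : ℕ in atTop, ∀ Y : ℕ, (X : ℝ) ^ θ ≤ Y → 2 * Y ≤ X →
        ∀ A : Set ℕ, A ⊆ R r →
        (N (Irregular A k c δ B X Y) X (X + Y) : ℝ) ≤ ε * Y / Real.log X ^ k := by
  subst hk
  have : Nonempty {x // x ∈ H} := ⟨⟨hne.choose, hne.choose_spec⟩⟩
  have hcast : ∀ (t h : ℕ), ((1 : ℕ) : ℤ) * (t : ℤ) + ((h : ℕ) : ℤ) = ((t + h : ℕ) : ℤ) := by
    intro t h
    push_cast
    ring
  obtain ⟨ra, hra, ha⟩ := final_lin (fun _ : {x // x ∈ H} => 1)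
    (fun i : {x // x ∈ H} => ((i.1 : ℕ) : ℤ)) (fun _ => one_pos)
    (fun i => by rw [Nat.cast_one]; exact isCoprime_one_left)
    (fun i j _ hij => Subtype.ext (by exact_mod_cast hij))
    (fun p hp => by
      obtain ⟨m, hm⟩ := hadm p hp
      refine ⟨m, fun i hi => hm i.1 i.2 ?_⟩
      rw [hcast, Int.natCast_dvd_natCast] at hi
      exact hi)
    R (fun _ => Set.univ) H.card (by rw [Fintype.card_coe])
    (fun r m hr hm i p hp hd => hR r m hr hm i.1 i.2 p hp (by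
      rw [hcast, Int.natCast_dvd_natCast] at hd
      exact hd)) (fun _ _ _ _ _ => Set.mem_univ _) θ hθ hθ1
  obtain ⟨rb, hrb, hb⟩ := lower_prog H hne M n0 hM hcop hadm θ hθ hθ1
  refine ⟨max ra rb, hra.trans (le_max_left _ _), fun r hr => ⟨?_, ?_⟩⟩
  · obtain ⟨κ, hκ, h⟩ := hb r ((le_max_right _ _).trans hr)
    refine ⟨κ, hκ, ?_⟩
    obtain ⟨m0, hm0⟩ := eventually_atTop.1 (hAl r (hra.trans ((le_max_left _ _).trans hr)))
    filter_upwards [h, eventually_ge_atTop m0] with X hX hXm Y hXY hYX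
    refine (hX Y hXY hYX).trans ?_
    have : N {n | n % M = n0 % M ∧ ∀ h ∈ H,
          (∀ p : ℕ, p.Prime → p ∣ n + h → (n : ℝ) ^ (1 / (r : ℝ)) < (p : ℝ)) ∧
          (n + h).primeFactorsList.length ≤ r} X (X + Y) ≤ N (Al r) X (X + Y) := by
      apply N_mono
      rintro m h1 h2 ⟨h3, h4⟩
      exact hm0 m (by omega) h3 (fun h hh => (h4 h hh).1) (fun h hh => (h4 h hh).2)
    exact_mod_cast this
  · exact (ha r ((le_max_left _ _).trans hr)).2

end Pool.Agent.TH977.PW
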